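import Mathlib

/-!
# Weil numbers with one pair of slopes: definitions
-/

set_option autoImplicit false

namespace Pool.Agent.KS6_5.OC

open Polynomial NumberField

/-- `P` is a monic polynomial with integral coefficients, all complex absolute values of its roots are
`√q`, and their absolute values in the algebraic closure of the `p`-adic numbers are
`q ^ (-(1 / 2 + δ))` and `q ^ (-(1 / 2 - δ))`: all slopes are `1 / 2 + δ` or `1 / 2 - δ`. So if `P` is the
characteristic polynomial of the Frobenius endomorphism of an abelian variety over the field with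
`q` elements, this says that the abelian variety is ordinary for `δ = 1 / 2`, and supersingular for
`δ = 0`. -/
structure HasSlopes (p : ℕ) [Fact p.Prime] (q : ℕ) (δ : ℝ) (P : ℤ[X]) : Prop where
  monic : P.Monic
  weil : ∀ z : AlgebraicClosure ℚ, aeval z P = 0 → ∀ φ : AlgebraicClosure ℚ →+* ℂ, ‖φ z‖ ^ 2 = q
  slope : ∀ z : AlgebraicClosure ℚ, aeval z P = 0 → ∀ l : AlgebraicClosure ℚ →+* PadicAlgCl p,
    ‖l z‖ = (q : ℝ) ^ (-(1 / 2 + δ)) ∨ ‖l z‖ = (q : ℝ) ^ (-(1 / 2 - δ))

/-- For each root `z` of `P`, for some `m > 0`, the number `z ^ m + (q / z) ^ m` is contained in a Galois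
extension `F` of the field of the rational numbers with the following properties: only one prime ideal
of the ring of integers of `F` contains `p`, and the Sylow `2`-subgroups of the Galois group of `F` are
cyclic. -/
def RealFieldsOnePlace (p q : ℕ) (P : ℤ[X]) : Prop :=
  ∀ z : AlgebraicClosure ℚ, aeval z P = 0 → ∃ m : ℕ, 0 < m ∧
    ∃ F : IntermediateField ℚ (AlgebraicClosure ℚ), FiniteDimensional ℚ F ∧ IsGalois ℚ F ∧
      z ^ m + (q / z) ^ m ∈ F ∧ (∃! Q : Ideal (𝓞 F), Q.IsPrime ∧ (p : 𝓞 F) ∈ Q) ∧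
      ∀ S : Sylow 2 (F ≃ₐ[ℚ] F), IsCyclic S

/-- No power of `z ^ 2 / q` is equal to a power of `z' ^ 2 / q`, for the roots `z` of `P` and `z'` of
`P'`. -/
def Incommensurable (q : ℕ) (P P' : ℤ[X]) : Prop :=
  ∀ z z' : AlgebraicClosure ℚ, aeval z P = 0 → aeval z' P' = 0 → ∀ r s : ℕ, 0 < r → 0 < s →
    (z ^ 2 / q) ^ r ≠ (z' ^ 2 / q) ^ s

/-- Some power `β ^ N` of the number `β` is a root of a rational polynomial `Q ≠ 0` such that for
each root `γ` of `Q` the absolute values `‖l γ‖`, for all embeddings `l` of the algebraic numbers in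
the algebraic closure of the `p`-adic numbers, lie within the factor `q ^ (w N / 2)` of some
constant: the slopes of `β`, with respect to `q`, lie in an interval of length `w`. -/
def SlopesWithin (p : ℕ) [Fact p.Prime] (q : ℕ) (w : ℝ) {Ω : Type} [Field Ω] [CharZero Ω] (β : Ω) :
    Prop :=
  ∃ N : ℕ, 0 < N ∧ ∃ Q : ℚ[X], Q ≠ 0 ∧ aeval (β ^ N) Q = 0 ∧
    ∀ γ : AlgebraicClosure ℚ, aeval γ Q = 0 → ∃ c : ℝ,
      ∀ l : AlgebraicClosure ℚ →+* PadicAlgCl p, 2 * |Real.log ‖l γ‖ - c| ≤ w * (N * Real.log q)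

/-- `f` commutes with a power of the Frobenius. -/
def IsTateMap {κ Ω M : Type} {V : κ → Type} [Field Ω] [∀ k, AddCommGroup (V k)]
    [∀ k, Module Ω (V k)] [AddCommGroup M] [Module Ω M] (Φ : ∀ k, V k →ₗ[Ω] V k)
    (G : M →ₗ[Ω] M) (f : MultilinearMap Ω V M) : Prop :=
  ∃ s : ℕ, 0 < s ∧ ∀ v, f (fun k => (Φ k ^ s) (v k)) = (G ^ s) (f v)

/-- `ψ` is the product of Tate forms in two variables and of a Tate map in few variables: there are
a set `S` of variables, with `∑ k ∈ S, (2 δ k) ^ 2 ≤ w ^ 2` and at most one `k` in `S` with `δ k = 0`, and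
a partition of the other variables in sets `B` with two elements, such that `ψ` is the product of
bilinear forms `f B` in the two variables of `B`, which are multiplied by `q ^ s` by the `s`-th powers
of the operators `Φ k`, for some `s > 0`, and of a multilinear map `g` in the variables in `S` with
values in `M`, such that `G ^ s g(v) = q ^ (r s) g(Φ ^ s v)` for some `s > 0`, where `r` is the number
of the sets `B`. -/
def IsProductOfPairs {κ Ω M : Type} [Fintype κ] [DecidableEq κ] {V : κ → Type} [Field Ω]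
    [∀ k, AddCommGroup (V k)] [∀ k, Module Ω (V k)] [AddCommGroup M] [Module Ω M]
    (q : ℕ) (w : ℝ) (δ : κ → ℝ) (Φ : ∀ k, V k →ₗ[Ω] V k) (G : M →ₗ[Ω] M)
    (ψ : MultilinearMap Ω V M) : Prop :=
  ∃ S : Finset κ, ∑ k ∈ S, (2 * δ k) ^ 2 ≤ w ^ 2 ∧
    (∀ i ∈ S, ∀ j ∈ S, δ i = 0 → δ j = 0 → i = j) ∧ ∃ (P : Finpartition (Finset.univ \ S))
    (f : ∀ B : Finset κ, MultilinearMap Ω (fun k : B => V k) Ω)
    (g : MultilinearMap Ω (fun k : S => V k) M),
    (∀ B ∈ P.parts, B.card = 2 ∧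
      ∃ s : ℕ, 0 < s ∧ ∀ v, f B (fun k => (Φ k ^ s) (v k)) = (q : Ω) ^ s * f B v) ∧
    (∃ s : ℕ, 0 < s ∧ ∀ v, (G ^ s) (g v) =
      ((q : Ω) ^ P.parts.card) ^ s • g (fun k => (Φ k ^ s) (v k))) ∧
    ∀ v, ψ v = (∏ B ∈ P.parts, f B (fun k => v k)) • g (fun k => v k)

end Pool.Agent.KS6_5.OC
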