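import Pool.Agent.KS6_5.OC.Letters
import Pool.Agent.KS6_5.KL.Pairs

/-!
# Tate maps for Weil numbers with one pair of slopes
-/

set_option autoImplicit false
set_option linter.unusedSectionVars false

namespace Pool.Agent.KS6_5.OC

open NumberField Polynomial Module Pool.Agent.TH121.KT Pool.Agent.KS6_5.SP
open Pool.Agent.KS6_5.KL (exists_matching prod_parts prod_power prodS prodS_apply)

noncomputable section

variable {p : ℕ} [Fact p.Prime] {A : Finset Qb}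
variable {κ Ω M : Type} [Fintype κ] [DecidableEq κ] [Field Ω] [CharZero Ω] [IsAlgClosed Ω]

/-- the matching of the letters -/
theorem match_letters {a : ℕ} (ha : 0 < a) (H : Letters p A) (τ : Qb →+* Ω) (δ : κ → ℝ)
    {Q : ℚ[X]} (hQ : Q ≠ 0) (μ : κ → Ω) (x : κ → Qb) (hxA : ∀ k, x k ∈ A)
    (hx : ∀ k, μ k ^ 2 = ((p ^ a : ℕ) : Ω) * τ (x k))
    (hxδ : ∀ k, ∀ l : Qb →+* PadicAlgCl p, |Real.log ‖l (x k)‖| =
      2 * δ k * Real.log ((p ^ a : ℕ) : ℝ))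
    {β : Ω} {M₀ s : ℕ} (hM₀ : 0 < M₀) (hβQ : aeval (β ^ M₀) Q = 0) (w : ℝ)
    (hQs : ∀ γ : Qb, aeval γ Q = 0 → ∃ c : ℝ,
      ∀ l : Qb →+* PadicAlgCl p, 2 * |Real.log ‖l γ‖ - c| ≤ w * (M₀ * Real.log ((p ^ a : ℕ) : ℝ)))
    (hs : 0 < s) (hβs : β ^ s = (∏ k, μ k) ^ s) :
    ∃ S : Finset κ, ∑ k ∈ S, (2 * δ k) ^ 2 ≤ w ^ 2 ∧
      (∀ i ∈ S, ∀ j ∈ S, δ i = 0 → δ j = 0 → i = j) ∧
      ∃ P : Finpartition (Finset.univ \ S), ∀ B ∈ P.parts,
      B.card = 2 ∧ ∃ t : ℕ, 0 < t ∧ (∏ k ∈ B, μ k) ^ t = ((p ^ a : ℕ) : Ω) ^ t := by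
  classical
  set q : ℕ := p ^ a with hqdef
  have hq : 0 < q := pow_pos (Fact.out : p.Prime).pos _
  have hq1 : 1 < q := Nat.one_lt_pow ha.ne' (Fact.out : p.Prime).one_lt
  obtain ⟨ιp⟩ : Nonempty (Qb →ₐ[ℚ] PadicAlgCl p) := ⟨IsAlgClosed.lift⟩
  let ι : Qb →+* PadicAlgCl p := ιp.toRingHom
  obtain ⟨n, hn0, htA⟩ := exists_exponent A
  have hq0 : (q : Ω) ≠ 0 := Nat.cast_ne_zero.2 hq.ne'
  have hqQ : (q : Qb) ≠ 0 := Nat.cast_ne_zero.2 hq.ne'
  have hqR : (0 : ℝ) < q := Nat.cast_pos.2 hq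
  have hlq : 0 < Real.log (q : ℝ) := Real.log_pos (by exact_mod_cast hq1)
  -- the letters to the power `n`
  have hμn : ∀ k, μ k ^ (2 * n) = τ ((q : Qb) ^ n * x k ^ n) := by
    intro k
    rw [pow_mul, hx k, mul_pow, map_mul, map_pow, map_natCast, map_pow]
  obtain ⟨γ, hγQ, hγ⟩ := exists_root τ hQ hβQ
  have hγ0 : γ ≠ 0 := by
    rintro rfl
    rw [map_zero] at hγ
    have h1 : β = 0 := (pow_eq_zero_iff hM₀.ne').1 hγ.symm
    rw [h1, zero_pow hs.ne'] at hβs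
    have h2 : ∏ k, μ k = 0 := (pow_eq_zero_iff hs.ne').1 hβs.symm
    obtain ⟨k, -, hk⟩ := Finset.prod_eq_zero_iff.1 h2
    have h3 := hx k
    rw [hk, zero_pow two_ne_zero] at h3
    have h4 : (q : Ω) * τ (x k) ≠ 0 := mul_ne_zero hq0
      ((_root_.map_ne_zero τ).2 (H.ne_zero (hxA k)))
    exact h4 h3.symm
  -- the relation
  have hrel : γ ^ (2 * n * s) = (q : Qb) ^ (n * Fintype.card κ * (s * M₀)) *
      (∏ k, x k ^ n) ^ (s * M₀) := by
    apply τ.injective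
    have h1 : (∏ k, μ k) ^ (2 * n) = τ ((q : Qb) ^ (n * Fintype.card κ) *
        ∏ k, x k ^ n) := by
      rw [← Finset.prod_pow, Finset.prod_congr rfl fun k _ => hμn k, ← map_prod,
        Finset.prod_mul_distrib, Finset.prod_const, Finset.card_univ, ← pow_mul]
    rw [map_pow, hγ, ← pow_mul]
    rw [show M₀ * (2 * n * s) = s * (2 * n * M₀) by ring, pow_mul, hβs, ← pow_mul,
      show s * (2 * n * M₀) = 2 * n * (s * M₀) by ring, pow_mul, h1, ← map_pow, mul_pow,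
      ← pow_mul]
  obtain ⟨c, hc⟩ := hQs γ hγQ
  let f : GQ → ℝ := fun g => (2 * n / M₀) * Real.log ‖ι (g γ)‖ -
    (n * Fintype.card κ) * Real.log ‖ι (g (q : Qb))‖
  have hM' : (0 : ℝ) < M₀ := Nat.cast_pos.2 hM₀
  have hs' : (0 : ℝ) < s := Nat.cast_pos.2 hs
  have hn' : (0 : ℝ) < n := Nat.cast_pos.2 hn0
  have hnorm : ∀ (g : GQ) (z : Qb), z ≠ 0 → 0 < ‖ι (g z)‖ := fun g z hz =>
    norm_pos_iff.2 ((_root_.map_ne_zero _).2 ((_root_.map_ne_zero _).2 hz))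
  have hlog : ∀ g : GQ, ∑ k, Real.log ‖ι (g (x k ^ n))‖ = f g := by
    intro g
    have h1 := congrArg (fun z => Real.log ‖ι (g z)‖) hrel
    simp only [map_mul, map_pow, map_prod, norm_mul, norm_pow, norm_prod] at h1
    have hx0 : ∀ k, 0 < ‖ι (g (x k))‖ := fun k => hnorm g _ (H.ne_zero (hxA k))
    have hqg : 0 < ‖ι (g (q : Qb))‖ := hnorm g _ hqQ
    rw [Real.log_mul (pow_pos hqg _).ne' (pow_pos (Finset.prod_pos fun k _ =>
      pow_pos (hx0 k) _) _).ne', Real.log_pow, Real.log_pow, Real.log_pow,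
      Real.log_prod (fun k _ => (pow_pos (hx0 k) _).ne')] at h1
    have h2 : ∀ k, Real.log ‖ι (g (x k ^ n))‖ = Real.log (‖ι (g (x k))‖ ^ n) := by
      intro k
      rw [map_pow, map_pow, norm_pow]
    rw [Finset.sum_congr rfl fun k _ => h2 k]
    simp only [f]
    push_cast at h1
    have h3 : (s * M₀ : ℝ) * ((2 * n / M₀) * Real.log ‖ι (g γ)‖ -
        (n * Fintype.card κ) * Real.log ‖ι (g (q : Qb))‖ -
        ∑ k, Real.log (‖ι (g (x k))‖ ^ n)) = 0 := by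
      have h4 : (s * M₀ : ℝ) * ((2 * n / M₀) * Real.log ‖ι (g γ)‖) =
          2 * n * s * Real.log ‖ι (g γ)‖ := by
        field_simp
      rw [mul_sub, mul_sub, h4, h1]
      ring
    have h5 := (mul_eq_zero.1 h3).resolve_left (mul_pos hs' hM').ne'
    linarith
  have hbound : ∀ g, |f g - ((2 * n / M₀) * c - (n * Fintype.card κ) *
      Real.log ‖ι (q : Qb)‖)| ≤ w * (n * Real.log (q : ℝ)) := by
    intro g
    have h1 := hc (ι.comp (g : Qb →+* Qb))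
    change 2 * |Real.log ‖ι (g γ)‖ - c| ≤ _ at h1
    have h2 : f g - ((2 * n / M₀) * c - (n * Fintype.card κ) * Real.log ‖ι (q : Qb)‖) =
        (n / M₀) * (2 * (Real.log ‖ι (g γ)‖ - c)) := by
      simp only [f, map_natCast]
      ring
    rw [h2, abs_mul, abs_mul, abs_of_pos (show (0 : ℝ) < n / M₀ by positivity),
      abs_of_pos (two_pos : (0 : ℝ) < 2)]
    calc (n / M₀ : ℝ) * (2 * |Real.log ‖ι (g γ)‖ - c|)
        ≤ (n / M₀) * (w * (M₀ * Real.log (q : ℝ))) := by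
          refine mul_le_mul_of_nonneg_left h1 (by positivity)
      _ = w * (n * Real.log (q : ℝ)) := by
          field_simp
  -- the matching
  obtain ⟨S, -, hop, P, hP⟩ := exists_matching (fun y : Qb => y⁻¹) (fun k => x k ^ n) _
    (Finset.univ : Finset κ) rfl
  have hS := H.bound ι htA hn0 dvd_rfl (S := S) (fun k => x k) (fun k => hxA k)
    (fun k l hkl => hop l l.2 k k.2 (fun h => hkl (Subtype.ext h.symm)))
    f _ _ hbound (fun g => by
      rw [← hlog g]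
      have h1 : ∑ k, Real.log ‖ι (g (x k ^ n))‖ = (∑ k ∈ S, Real.log ‖ι (g (x k ^ n))‖) +
          ∑ k ∈ Finset.univ \ S, Real.log ‖ι (g (x k ^ n))‖ := by
        rw [add_comm]
        exact (Finset.sum_sdiff (Finset.subset_univ S)).symm
      have h2 : ∑ k ∈ Finset.univ \ S, Real.log ‖ι (g (x k ^ n))‖ = 0 := by
        rw [← P.biUnion_parts, Finset.sum_biUnion P.supIndep.pairwiseDisjoint]
        refine Finset.sum_eq_zero fun B hB => ?_
        obtain ⟨i, j, hij, rfl, hj⟩ := hP B hB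
        simp only [id_eq]
        rw [Finset.sum_pair hij, hj, map_inv₀, map_inv₀, norm_inv, Real.log_inv, add_neg_cancel]
      rw [h1, h2, add_zero]
      exact Finset.sum_coe_sort S (fun k => Real.log ‖ι (g (x k ^ n))‖))
  refine ⟨S, ?_, ?_, P, fun B hB => ?_⟩
  · have h1 : ∀ k : S, ((n : ℝ) * Real.log ‖ι (x k)‖) ^ 2 =
        (n * Real.log (q : ℝ)) ^ 2 * (2 * δ k) ^ 2 := by
      intro k
      have h2 := hxδ k.1 ι
      rw [mul_pow, ← sq_abs (Real.log ‖ι (x k)‖), h2]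
      ring
    rw [Finset.sum_congr rfl fun k _ => h1 k, ← Finset.mul_sum,
      Finset.sum_coe_sort S (fun k => (2 * δ k) ^ 2)] at hS
    have hpos : 0 < (n * Real.log (q : ℝ)) ^ 2 := pow_pos (mul_pos hn' hlq) 2
    rw [mul_pow w, mul_comm (w ^ 2)] at hS
    exact le_of_mul_le_mul_left hS hpos
  · intro i hi j hj hi0 hj0
    by_contra hij
    have h1 : ∀ k, δ k = 0 → x k ^ n = 1 := by
      intro k hk
      have h2 := hxδ k ι
      rw [hk, mul_zero, zero_mul, abs_eq_zero] at h2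
      obtain ⟨r, hr, h3⟩ := H.root_of_unity (hxA k) h2
      have h4 := htA (x k) (hxA k) 1 H.one ⟨r, hr, by rw [h3, one_pow]⟩
      rwa [one_pow] at h4
    have h5 := hop i hi j hj hij
    simp only [h1 i hi0, h1 j hj0, inv_one, ne_eq, not_true] at h5
  · obtain ⟨k, k', hkk, rfl, hk'⟩ := hP B hB
    refine ⟨Finset.card_pair hkk, 2 * n, Nat.mul_pos two_pos hn0, ?_⟩
    have hy0 : x k ^ n ≠ 0 := pow_ne_zero _ (H.ne_zero (hxA k))
    rw [Finset.prod_pair hkk, mul_pow, hμn, hμn, hk', ← map_mul]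
    rw [show (q : Qb) ^ n * x k ^ n * ((q : Qb) ^ n * (x k ^ n)⁻¹) =
      ((q : Qb) ^ n * (q : Qb) ^ n) * (x k ^ n * (x k ^ n)⁻¹) by ring,
      mul_inv_cancel₀ hy0, mul_one, ← pow_add, map_pow, map_natCast]
    congr 1
    ring

variable {V : κ → Type} [∀ k, AddCommGroup (V k)] [∀ k, Module Ω (V k)] [AddCommGroup M]
  [Module Ω M] [FiniteDimensional Ω M]

theorem isProductOfPairs {a : ℕ} (ha : 0 < a) (H : Letters p A) (τ : Qb →+* Ω) (δ : κ → ℝ)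
    (F : ∀ k, V k →ₗ[Ω] V k) (G : M →ₗ[Ω] M) (w : ℝ)
    (hG : ∀ β : Ω, Module.End.HasEigenvalue G β → SlopesWithin p (p ^ a) w β)
    (l : ∀ k, V k →ₗ[Ω] Ω) (μ : κ → Ω) (y : M) (s : ℕ)
    (hl : ∀ k x, l k (F k x) = μ k * l k x)
    (hμ : ∀ k, ∃ x ∈ A, μ k ^ 2 = ((p ^ a : ℕ) : Ω) * τ x ∧
      ∀ l : Qb →+* PadicAlgCl p, |Real.log ‖l x‖| = 2 * δ k * Real.log ((p ^ a : ℕ) : ℝ))
    (hy : y ≠ 0) (hs : 0 < s) (hGy : (G ^ s) y = (∏ k, μ k) ^ s • y) :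
    IsProductOfPairs (p ^ a) w δ F G (prodM l y) := by
  classical
  choose x hxA hx hxδ using hμ
  obtain ⟨β, hβ, hβs⟩ := exists_eigenvalue hs hy hGy
  obtain ⟨M₀, hM₀, Q, hQ, hβQ, hQs⟩ := hG β hβ
  obtain ⟨S, hS, hS0, P, hP⟩ := match_letters ha H τ δ hQ μ x hxA hx hxδ hM₀ hβQ w hQs hs hβs
  refine ⟨S, hS, hS0, P, fun B => prodB l B, prodS l y S, ?_, ?_, ?_⟩
  · intro B hB
    obtain ⟨h1, t, ht, h3⟩ := hP B hB
    refine ⟨h1, t, ht, fun v => ?_⟩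
    rw [prodB_apply, prodB_apply]
    rw [Finset.prod_congr rfl fun k _ => eigenform_pow (hl k.1) t (v k), Finset.prod_mul_distrib,
      Finset.prod_pow, Finset.prod_coe_sort B μ, h3]
  · obtain ⟨t, ht, h1⟩ := prod_power P fun B hB => (hP B hB).2
    refine ⟨s * t, Nat.mul_pos hs ht, fun v => ?_⟩
    have h2 : (G ^ (s * t)) y = (∏ k, μ k) ^ (s * t) • y := by
      rw [pow_mul, eigenvector_pow hGy, ← pow_mul]
    have h3 : (∏ k, μ k) ^ (s * t) =
        (((p ^ a : ℕ) : Ω) ^ P.parts.card) ^ (s * t) * (∏ k ∈ S, μ k) ^ (s * t) := by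
      rw [← prod_parts P μ, mul_pow, mul_comm s t, pow_mul, h1, ← pow_mul]
    rw [prodS_apply, prodS_apply, map_smul, h2, h3]
    rw [Finset.prod_congr rfl fun k _ => eigenform_pow (hl k.1) (s * t) (v k),
      Finset.prod_mul_distrib, Finset.prod_pow, Finset.prod_coe_sort S μ, smul_smul, smul_smul]
    congr 1
    ring
  · intro v
    rw [prodM_apply, prodS_apply, smul_smul, ← prod_parts P (fun k => l k (v k))]
    congr 2
    · refine Finset.prod_congr rfl fun B _ => ?_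
      rw [prodB_apply]
      exact (Finset.prod_coe_sort B (fun k => l k (v k))).symm
    · exact (Finset.prod_coe_sort S (fun k => l k (v k))).symm

/-- **Main theorem.** -/
theorem tate_onePlace {a : ℕ} (ha : 0 < a) (P : κ → ℤ[X]) (δ : κ → ℝ) (hδ : ∀ k, 0 ≤ δ k)
    (hP : ∀ k, HasSlopes p (p ^ a) (δ k) (P k))
    (hF : ∀ k, 0 < δ k → RealFieldsOnePlace p (p ^ a) (P k))
    (hI : ∀ k l, 0 < δ k → 0 < δ l → δ k ≠ δ l → Incommensurable (p ^ a) (P k) (P l))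
    [∀ k, FiniteDimensional Ω (V k)] (Φ : ∀ k, V k →ₗ[Ω] V k)
    (hΦ : ∀ k, Submodule.span Ω {x : V k | ∃ μ : Ω, Φ k x = μ • x} = ⊤)
    (hPΦ : ∀ k, aeval (Φ k) (P k) = 0)
    (G : M →ₗ[Ω] M) (w : ℝ)
    (hG : ∀ β : Ω, Module.End.HasEigenvalue G β → SlopesWithin p (p ^ a) w β)
    (f : MultilinearMap Ω V M) (hf : IsTateMap Φ G f) :
    f ∈ Submodule.span Ω {ψ | IsProductOfPairs (p ^ a) w δ Φ G ψ} := by
  classical
  have H := letters_of P δ hδ hP hF hI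
  obtain ⟨τ₀⟩ : Nonempty (Qb →ₐ[ℚ] Ω) := ⟨IsAlgClosed.lift⟩
  let τ : Qb →+* Ω := τ₀.toRingHom
  -- the eigenvalues
  have hev : ∀ k (x : V k) (μ : Ω), Φ k x = μ • x → x ≠ 0 → ∃ x ∈ allLetters p a P,
      μ ^ 2 = ((p ^ a : ℕ) : Ω) * τ x ∧
      ∀ l : Qb →+* PadicAlgCl p, |Real.log ‖l x‖| = 2 * δ k * Real.log ((p ^ a : ℕ) : ℝ) := by
    intro k x μ hμ hx
    have h1 : aeval μ (P k) = 0 := by
      have h2 : Module.End.HasEigenvector (Φ k) μ x :=
        ⟨Module.End.mem_eigenspace_iff.2 hμ, hx⟩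
      have h3 : aeval (Φ k) ((P k).map (algebraMap ℤ Ω)) = 0 := by
        rw [← hPΦ k]
        exact Polynomial.aeval_map_algebraMap Ω (Φ k) (P k)
      have h4 := Module.End.aeval_apply_of_hasEigenvector (p := (P k).map (algebraMap ℤ Ω)) h2
      rw [h3, LinearMap.zero_apply] at h4
      have h5 := (smul_eq_zero.1 h4.symm).resolve_right hx
      rwa [eval_map_algebraMap] at h5
    have hne : (P k).map (algebraMap ℤ ℚ) ≠ 0 := ((hP k).monic.map _).ne_zero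
    obtain ⟨z, hz, hzμ⟩ := exists_root τ hne (γ := μ) (by
      rw [Polynomial.aeval_map_algebraMap]
      exact h1)
    rw [Polynomial.aeval_map_algebraMap] at hz
    refine ⟨z ^ 2 / ((p ^ a : ℕ) : Qb),
      (mem_allLetters fun k => (hP k).monic).2 (Or.inr ⟨k, z, hz, rfl⟩), ?_, fun l =>
        (hP k).log_letter (hδ k) hz l⟩
    have hq0 : ((p ^ a : ℕ) : Ω) ≠ 0 :=
      Nat.cast_ne_zero.2 (pow_ne_zero _ (Fact.out : p.Prime).ne_zero)
    rw [map_div₀, map_pow, map_natCast, hzμ, mul_div_cancel₀ _ hq0]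
  refine Submodule.span_mono ?_ (expand Φ G (fun k μ => ∃ x ∈ allLetters p a P,
      μ ^ 2 = ((p ^ a : ℕ) : Ω) * τ x ∧
      ∀ l : Qb →+* PadicAlgCl p, |Real.log ‖l x‖| = 2 * δ k * Real.log ((p ^ a : ℕ) : ℝ))
    (fun k => ?_) f hf)
  · rintro ψ ⟨l, μ, y, s, h1, h2, h3, h4, h5, rfl⟩
    exact isProductOfPairs ha H τ δ Φ G w hG l μ y s h1 h2 h3 h4 h5
  · rw [eq_top_iff, ← hΦ k]
    refine Submodule.span_le.2 ?_
    rintro x ⟨μ, hμ⟩
    by_cases hx : x = 0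
    · rw [hx]
      exact Submodule.zero_mem _
    · exact Submodule.subset_span ⟨μ, hμ, hev k x μ hμ hx⟩

end

end Pool.Agent.KS6_5.OC
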