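import Mathlib

/-!
# A dichotomy for products of two sign functions on a group
-/

set_option autoImplicit false

namespace Pool.Agent.KS6_5.OC

theorem units_sq (u : ℤˣ) : u * u = 1 := Int.units_mul_self u

/-- **The dichotomy.** Let `F₁`, `F₂` be functions with values `± 1` on a group, which are multiplied
by characters under the right translations by the normal subgroups `H₁`, `H₂`, and such that all left
translates of the pair `(F₁, F₂)` are left translates by elements of `H₁`, and by elements of `H₂`. If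
`H₁` has at most one nontrivial character with values `± 1` which is trivial on `H₁ ∩ H₂`, then
`F₁ F₂` is constant or changes the sign under some right translation. -/
theorem dichotomy {G : Type*} [Group G] (F₁ F₂ : G → ℤˣ) (H₁ H₂ : Subgroup G) [hn₁ : H₁.Normal]
    [hn₂ : H₂.Normal] (ε₁ : H₁ →* ℤˣ) (ε₂ : H₂ →* ℤˣ)
    (h₁ : ∀ (g : G) (h : H₁), F₁ (g * h) = F₁ g * ε₁ h)
    (h₂ : ∀ (g : G) (h : H₂), F₂ (g * h) = F₂ g * ε₂ h)
    (d₁ : ∀ g, ∃ u ∈ H₁, ∀ z, F₁ (g * z) = F₁ (u * z) ∧ F₂ (g * z) = F₂ (u * z))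
    (d₂ : ∀ g, ∃ u ∈ H₂, ∀ z, F₁ (g * z) = F₁ (u * z) ∧ F₂ (g * z) = F₂ (u * z))
    (hQ : ∀ χ₁ χ₂ : H₁ →* ℤˣ, (∀ k : H₁, (k : G) ∈ H₂ → χ₁ k = 1) →
      (∀ k : H₁, (k : G) ∈ H₂ → χ₂ k = 1) → χ₁ ≠ 1 → χ₂ ≠ 1 → χ₁ = χ₂) :
    (∀ g, F₁ g * F₂ g = F₁ 1 * F₂ 1) ∨ ∃ t, ∀ g, F₁ (g * t) * F₂ (g * t) = -(F₁ g * F₂ g) := by
  classical
  by_contra hcon
  push Not at hcon
  obtain ⟨⟨g₀, hg₀⟩, hno⟩ := hcon
  -- the product
  let P : G → ℤˣ := fun g => F₁ g * F₂ g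
  have hP : ∀ g, P g = F₁ g * F₂ g := fun g => rfl
  have hno' : ∀ t, (∀ g, P (g * t) = -P g) → False := by
    intro t ht
    obtain ⟨g, hg⟩ := hno t
    exact hg (ht g)
  -- the characters agree on the intersection
  have hK : ∀ (k : G) (k1 : k ∈ H₁) (k2 : k ∈ H₂), ε₁ ⟨k, k1⟩ = ε₂ ⟨k, k2⟩ := by
    intro k k1 k2
    by_contra hne
    refine hno' k fun g => ?_
    have e1 := h₁ g ⟨k, k1⟩
    have e2 := h₂ g ⟨k, k2⟩
    simp only at e1 e2
    rw [hP, hP, e1, e2]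
    have e3 : ε₁ ⟨k, k1⟩ * ε₂ ⟨k, k2⟩ = -1 := by
      rcases Int.units_eq_one_or (ε₁ ⟨k, k1⟩) with a | a <;>
        rcases Int.units_eq_one_or (ε₂ ⟨k, k2⟩) with b | b
      · exact absurd (a.trans b.symm) hne
      · rw [a, b]; rfl
      · rw [a, b]; rfl
      · exact absurd (a.trans b.symm) hne
    calc F₁ g * ε₁ ⟨k, k1⟩ * (F₂ g * ε₂ ⟨k, k2⟩) =
        (F₁ g * F₂ g) * (ε₁ ⟨k, k1⟩ * ε₂ ⟨k, k2⟩) := by
          rw [mul_mul_mul_comm]
      _ = -(F₁ g * F₂ g) := by rw [e3]; simp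
  -- the commutator
  have hmem : ∀ (u : H₂) (h : G), h⁻¹ * u * h ∈ H₂ := by
    intro u h
    have := hn₂.conj_mem u u.2 h⁻¹
    rwa [inv_inv] at this
  let β : H₂ → G → ℤˣ := fun u h => ε₂ u * ε₂ ⟨h⁻¹ * u * h, hmem u h⟩
  have hβ : ∀ u h, β u h = ε₂ u * ε₂ ⟨h⁻¹ * u * h, hmem u h⟩ := fun u h => rfl
  have F2u : ∀ (u : H₂), F₂ u = F₂ 1 * ε₂ u := by
    intro u
    have := h₂ 1 u
    rwa [one_mul] at this
  -- the translation formula
  have htr : ∀ (g : G) (h : H₁), ∃ u : H₂, (∀ z, F₁ (g * z) = F₁ (u * z) ∧ F₂ (g * z) = F₂ (u * z)) ∧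
      P (g * h) = P g * (P h * P 1) * β u h := by
    intro g h
    obtain ⟨u, hu, hz⟩ := d₂ g
    refine ⟨⟨u, hu⟩, hz, ?_⟩
    have e1 : F₁ (g * h) = F₁ g * ε₁ h := h₁ g h
    have e2 : F₂ (g * h) = F₂ h * ε₂ ⟨(h : G)⁻¹ * u * h, hmem ⟨u, hu⟩ h⟩ := by
      rw [(hz h).2]
      have := h₂ h ⟨(h : G)⁻¹ * u * h, hmem ⟨u, hu⟩ h⟩
      rw [← this]
      congr 1
      group
    have e3 : F₂ g = F₂ 1 * ε₂ ⟨u, hu⟩ := by
      have := (hz 1).2
      rw [mul_one, mul_one] at this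
      rw [this]
      exact F2u ⟨u, hu⟩
    have e4 : F₁ h = F₁ 1 * ε₁ h := by
      have := h₁ 1 h
      rwa [one_mul] at this
    rw [hP, hP, hP, hP, hβ, e1, e2, e3, e4]
    have s1 := units_sq (F₁ 1)
    have s2 := units_sq (F₂ 1)
    have s3 := units_sq (ε₂ ⟨u, hu⟩)
    calc F₁ g * ε₁ h * (F₂ h * ε₂ ⟨(h : G)⁻¹ * u * h, hmem ⟨u, hu⟩ h⟩)
        = (F₁ 1 * F₁ 1) * (F₂ 1 * F₂ 1) * (ε₂ ⟨u, hu⟩ * ε₂ ⟨u, hu⟩) *
          (F₁ g * ε₁ h * (F₂ h * ε₂ ⟨(h : G)⁻¹ * u * h, hmem ⟨u, hu⟩ h⟩)) := by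
          rw [s1, s2, s3, one_mul, one_mul, one_mul]
      _ = F₁ g * (F₂ 1 * ε₂ ⟨u, hu⟩) * (F₁ 1 * ε₁ h * F₂ h * (F₁ 1 * F₂ 1)) *
          (ε₂ ⟨u, hu⟩ * ε₂ ⟨(h : G)⁻¹ * u * h, hmem ⟨u, hu⟩ h⟩) := by
          ac_rfl
  -- multiplicativity of `β` in the second variable
  have hβmul : ∀ (u : H₂) (a b : H₁), β u (a * b) = β u a * β u b := by
    intro u a b
    -- the commutator with `a` is in the intersection
    have ha2 : (u : G)⁻¹ * ((a : G)⁻¹ * u * a) ∈ H₂ := H₂.mul_mem (H₂.inv_mem u.2) (hmem u a)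
    have ha1 : (u : G)⁻¹ * ((a : G)⁻¹ * u * a) ∈ H₁ := by
      have h3 : (u : G)⁻¹ * (a : G)⁻¹ * u ∈ H₁ := by
        have := hn₁.conj_mem (a : G)⁻¹ (H₁.inv_mem a.2) (u : G)⁻¹
        rwa [inv_inv] at this
      have h4 := H₁.mul_mem h3 a.2
      convert h4 using 1
      group
    have hb2 : (b : G)⁻¹ * ((u : G)⁻¹ * ((a : G)⁻¹ * u * a)) * b ∈ H₂ := by
      have := hn₂.conj_mem _ ha2 (b : G)⁻¹
      rwa [inv_inv] at this
    have hb1 : (b : G)⁻¹ * ((u : G)⁻¹ * ((a : G)⁻¹ * u * a)) * b ∈ H₁ := by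
      have := hn₁.conj_mem _ ha1 (b : G)⁻¹
      rwa [inv_inv] at this
    have e1 : ε₂ ⟨_, hb2⟩ = ε₂ ⟨_, ha2⟩ := by
      rw [← hK _ hb1 hb2, ← hK _ ha1 ha2]
      have : (⟨_, hb1⟩ : H₁) = b⁻¹ * ⟨_, ha1⟩ * b := Subtype.ext rfl
      rw [this, map_mul, map_mul, map_inv, mul_comm (ε₁ b)⁻¹, inv_mul_cancel_right]
    have e2 : ε₂ ⟨_, ha2⟩ = β u a := by
      have : (⟨_, ha2⟩ : H₂) = u⁻¹ * ⟨(a : G)⁻¹ * u * a, hmem u a⟩ := Subtype.ext rfl
      rw [this, map_mul, map_inv, Int.units_inv_eq_self, hβ]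
    have e3 : (⟨((a : G) * b)⁻¹ * u * (a * b), hmem u (a * b)⟩ : H₂) =
        ⟨(b : G)⁻¹ * u * b, hmem u b⟩ * ⟨_, hb2⟩ := by
      apply Subtype.ext
      simp only [Subgroup.coe_mul]
      group
    rw [hβ u (a * b), e3, map_mul, e1, e2, ← mul_assoc, ← hβ u b, mul_comm]
  have hβone : ∀ u : H₂, β u 1 = 1 := by
    intro u
    rw [hβ]
    have : (⟨(1 : G)⁻¹ * u * 1, hmem u 1⟩ : H₂) = u := Subtype.ext (by simp)
    rw [this, units_sq]
  let βh : H₂ → (H₁ →* ℤˣ) := fun u =>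
    { toFun := fun h => β u h
      map_one' := hβone u
      map_mul' := fun a b => hβmul u a b }
  have hβh : ∀ u (h : H₁), βh u h = β u h := fun u h => rfl
  have hβsq : ∀ (u : H₂) (h : H₁), β u (h * h : H₁) = 1 := by
    intro u h
    rw [← hβh, map_mul, units_sq]
  -- the normalized function on `H₁`
  have hPP : ∀ g, P g * P g = 1 := fun g => units_sq _
  -- `B` on `H₁`
  choose uu huu htr' using htr
  let B : H₁ → H₁ → ℤˣ := fun h' h => β (uu h' h) h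
  have hB : ∀ h' h : H₁, P (h' * h) = P h' * (P h * P 1) * B h' h := fun h' h => htr' h' h
  have hBval : ∀ h' h : H₁, B h' h = P (h' * h) * P h' * (P h * P 1) := by
    intro h' h
    rw [hB]
    calc B h' h = (P h' * P h') * ((P h * P h) * (P 1 * P 1)) * B h' h := by
          rw [hPP, hPP, hPP]; simp
      _ = P h' * (P h * P 1) * B h' h * P h' * (P h * P 1) := by ac_rfl
  -- every value of `β` with the right `u` is a value of `B`
  have hβB : ∀ (g : G) (h : H₁), ∃ h' : H₁, β (uu g h) h = B h' h := by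
    intro g h
    obtain ⟨v, hv, hz⟩ := d₁ g
    refine ⟨⟨v, hv⟩, ?_⟩
    have e1 : P (g * h) = P (v * h) := by rw [hP, hP, (hz h).1, (hz h).2]
    have e2 : P g = P v := by
      have := hz 1
      rw [mul_one, mul_one] at this
      rw [hP, hP, this.1, this.2]
    have e3 := htr' g h
    have e4 := hB ⟨v, hv⟩ h
    simp only at e4
    rw [e1, e2, e4] at e3
    exact (mul_left_cancel e3).symm
  -- `B` is multiplicative in the second variable: use a fixed `u`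
  have hBu : ∀ (h' : H₁), ∃ u : H₂, ∀ h : H₁, B h' h = β u h := by
    intro h'
    obtain ⟨u, hu, hz⟩ := d₂ h'
    refine ⟨⟨u, hu⟩, fun h => ?_⟩
    -- the formula with this `u`
    have e1 : F₁ (h' * h) = F₁ h' * ε₁ h := h₁ h' h
    have e2 : F₂ ((h' : G) * h) = F₂ h * ε₂ ⟨(h : G)⁻¹ * u * h, hmem ⟨u, hu⟩ h⟩ := by
      rw [(hz h).2]
      have := h₂ h ⟨(h : G)⁻¹ * u * h, hmem ⟨u, hu⟩ h⟩
      rw [← this]
      congr 1
      group
    have e3 : F₂ h' = F₂ 1 * ε₂ ⟨u, hu⟩ := by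
      have := (hz 1).2
      rw [mul_one, mul_one] at this
      rw [this]
      exact F2u ⟨u, hu⟩
    have e4 : F₁ h = F₁ 1 * ε₁ h := by
      have := h₁ 1 h
      rwa [one_mul] at this
    rw [hBval, hP, hP, hP, hP, hβ, e1, e2, e3, e4]
    calc F₁ h' * ε₁ h * (F₂ h * ε₂ ⟨(h : G)⁻¹ * u * h, hmem ⟨u, hu⟩ h⟩) *
          (F₁ h' * (F₂ 1 * ε₂ ⟨u, hu⟩)) * (F₁ 1 * ε₁ h * F₂ h * (F₁ 1 * F₂ 1))
        = (F₁ h' * F₁ h') * (ε₁ h * ε₁ h) * (F₂ h * F₂ h) * (F₂ 1 * F₂ 1) * (F₁ 1 * F₁ 1) *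
          (ε₂ ⟨u, hu⟩ * ε₂ ⟨(h : G)⁻¹ * u * h, hmem ⟨u, hu⟩ h⟩) := by ac_rfl
      _ = _ := by rw [units_sq, units_sq, units_sq, units_sq, units_sq]; simp
  have hBmul2 : ∀ h' a b : H₁, B h' (a * b) = B h' a * B h' b := by
    intro h' a b
    obtain ⟨u, hu⟩ := hBu h'
    rw [hu, hu, hu]
    exact hβmul u a b
  have hBmul1 : ∀ h' h'' h : H₁, B (h' * h'') h = B h' h * B h'' h := by
    intro h' h'' h
    have e1 : P (h' * h'' * h : H₁) = P h' * (P (h'' * h : H₁) * P 1) * B h' (h'' * h) := by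
      rw [← hB h' (h'' * h)]
      congr 1
      simp [mul_assoc]
    have e2 : P (h' * h'' : H₁) = P h' * (P h'' * P 1) * B h' h'' := hB h' h''
    have e3 : P (h'' * h : H₁) = P h'' * (P h * P 1) * B h'' h := hB h'' h
    have e4 : B (h' * h'') h = P (h' * h'' * h : H₁) * P (h' * h'' : H₁) * (P h * P 1) :=
      hBval (h' * h'') h
    rw [e4, e1, e2, e3, hBmul2]
    calc P h' * (P h'' * (P h * P 1) * B h'' h * P 1) * (B h' h'' * B h' h) *
          (P h' * (P h'' * P 1) * B h' h'') * (P h * P 1)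
        = (P h' * P h') * (P h'' * P h'') * (P h * P h) * (P 1 * P 1) * (P 1 * P 1) *
          (B h' h'' * B h' h'') * (B h' h * B h'' h) := by ac_rfl
      _ = _ := by rw [hPP, hPP, hPP, hPP, units_sq]; simp
  have hBone1 : ∀ h, B 1 h = 1 := by
    intro h
    have := hBmul1 1 1 h
    rw [one_mul] at this
    exact (mul_eq_left.1 this.symm)
  -- `P` on squares
  have hsq : ∀ h : H₁, P (h * h : H₁) = P 1 * B h h := by
    intro h
    calc P (h * h : H₁) = P h * (P h * P 1) * B h h := hB h h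
      _ = (P h * P h) * (P 1 * B h h) := by ac_rfl
      _ = _ := by rw [hPP, one_mul]
  have hsq1 : ∀ h : H₁, B h h = 1 := by
    intro h
    by_contra hne
    have h1 : B h h = -1 := (Int.units_eq_one_or _).resolve_left hne
    refine hno' ((h * h : H₁) : G) fun g => ?_
    rw [htr' g (h * h), hsq h, h1]
    have e1 : β (uu g (h * h)) (h * h : H₁) = 1 := hβsq _ h
    have e2 : β (uu g (h * h)) ((h * h : H₁) : G) = 1 := e1
    rw [e2]
    have e3 := hPP 1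
    calc P g * (P 1 * -1 * P 1) * 1 = -(P g * (P 1 * P 1)) := by simp
      _ = - P g := by rw [e3, mul_one]
  -- `B` is trivial on the intersection
  have hPk : ∀ k : H₁, (k : G) ∈ H₂ → P k = P 1 := by
    intro k hk
    have e1 : F₁ k = F₁ 1 * ε₁ k := by
      have := h₁ 1 k
      rwa [one_mul] at this
    have e2 : F₂ k = F₂ 1 * ε₂ ⟨k, hk⟩ := F2u ⟨k, hk⟩
    rw [hP, hP, e1, e2, ← hK k k.2 hk, mul_mul_mul_comm, units_sq, mul_one]
  have hBk2 : ∀ (h' : H₁) (k : H₁), (k : G) ∈ H₂ → B h' k = 1 := by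
    intro h' k hk
    obtain ⟨u, hu⟩ := hBu h'
    rw [hu, hβ]
    have : (⟨(k : G)⁻¹ * u * k, hmem u k⟩ : H₂) = (⟨k, hk⟩ : H₂)⁻¹ * u * ⟨k, hk⟩ :=
      Subtype.ext rfl
    rw [this, map_mul, map_mul, map_inv, mul_comm (ε₂ ⟨k, hk⟩)⁻¹, inv_mul_cancel_right, units_sq]
  have hBk1 : ∀ (k h : H₁), (k : G) ∈ H₂ → B k h = 1 := by
    intro k h hk
    -- symmetric up to commutators: use `B (k h) (k h) = 1`
    have e1 := hsq1 (k * h)
    rw [hBmul2, hBmul1, hBmul1, hBk2 k k hk, hBk2 h k hk, hsq1 h] at e1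
    simpa using e1
  -- `B` is trivial
  have hB1 : ∀ h' h : H₁, B h' h = 1 := by
    intro h' h
    by_contra hne
    have e0 : B h' h = -1 := (Int.units_eq_one_or _).resolve_left hne
    let χ₁ : H₁ →* ℤˣ :=
      { toFun := fun x => B x h
        map_one' := hBone1 h
        map_mul' := fun a b => hBmul1 a b h }
    let χ₂ : H₁ →* ℤˣ :=
      { toFun := fun x => B h' x
        map_one' := by
          have := hBmul2 h' 1 1
          rw [one_mul] at this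
          exact (mul_eq_left.1 this.symm)
        map_mul' := fun a b => hBmul2 h' a b }
    have hχ : χ₁ = χ₂ := by
      refine hQ χ₁ χ₂ (fun k hk => hBk1 k h hk) (fun k hk => hBk2 h' k hk) ?_ ?_
      · intro h1
        have := DFunLike.congr_fun h1 h'
        change B h' h = 1 at this
        exact hne this
      · intro h1
        have := DFunLike.congr_fun h1 h
        change B h' h = 1 at this
        exact hne this
    have h1 := DFunLike.congr_fun hχ h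
    change B h h = B h' h at h1
    rw [hsq1 h] at h1
    exact hne h1.symm
  -- conclusion
  have hfin : ∀ h : H₁, P h = P 1 := by
    intro h
    by_contra hne
    have h1 : P h * P 1 = -1 := by
      rcases Int.units_eq_one_or (P h) with a | a <;> rcases Int.units_eq_one_or (P 1) with b | b
      · exact absurd (a.trans b.symm) hne
      · rw [a, b]; rfl
      · rw [a, b]; rfl
      · exact absurd (a.trans b.symm) hne
    refine hno' h fun g => ?_
    obtain ⟨h', hh'⟩ := hβB g h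
    rw [htr' g h, h1, hh', hB1]
    simp
  obtain ⟨v, hv, hz⟩ := d₁ g₀
  have e2 : P g₀ = P v := by
    have := hz 1
    rw [mul_one, mul_one] at this
    rw [hP, hP, this.1, this.2]
  exact hg₀ (e2.trans (hfin ⟨v, hv⟩))

end Pool.Agent.KS6_5.OC
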