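import Pool.Agent.KS6_5.OC.Slopes

/-!
# The mean square bound for the unmatched letters
-/

set_option autoImplicit false
set_option linter.unusedSectionVars false

namespace Pool.Agent.KS6_5.OC

open NumberField Polynomial Pool.Agent.TH121.KT Pool.Agent.KS6_5.SP

noncomputable section

variable {p : ℕ} [Fact p.Prime] {A : Finset Qb}

/-- a uniform exponent -/
theorem exists_exponent (A : Finset Qb) : ∃ t : ℕ, 0 < t ∧ ∀ x ∈ A, ∀ y ∈ A,
    (∃ r : ℕ, 0 < r ∧ x ^ r = y ^ r) → x ^ t = y ^ t := by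
  classical
  let r : Qb × Qb → ℕ := fun z => if h : ∃ r : ℕ, 0 < r ∧ z.1 ^ r = z.2 ^ r then h.choose else 1
  have hr : ∀ z, 0 < r z := by
    intro z
    by_cases h : ∃ r : ℕ, 0 < r ∧ z.1 ^ r = z.2 ^ r
    · simp only [r, dif_pos h]
      exact h.choose_spec.1
    · simp only [r, dif_neg h]
      exact one_pos
  refine ⟨∏ z ∈ A ×ˢ A, r z, Finset.prod_pos fun z _ => hr z, ?_⟩
  intro x hx y hy h
  have h1 : x ^ r (x, y) = y ^ r (x, y) := by
    have h' : ∃ r : ℕ, 0 < r ∧ (x, y).1 ^ r = (x, y).2 ^ r := h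
    simp only [r]
    rw [dif_pos h']
    exact h'.choose_spec.2
  have h2 : (x, y) ∈ A ×ˢ A := Finset.mk_mem_product hx hy
  rw [← Finset.mul_prod_erase _ _ h2, pow_mul, pow_mul, h1]

/-- **The mean square bound.** -/
theorem Letters.bound (H : Letters p A) (ι : Qb →+* PadicAlgCl p) {t n : ℕ}
    (ht : ∀ x ∈ A, ∀ y ∈ A, (∃ r : ℕ, 0 < r ∧ x ^ r = y ^ r) → x ^ t = y ^ t)
    (hn : 0 < n) (htn : t ∣ n) {S : Type} [Fintype S] (x : S → Qb) (hx : ∀ k, x k ∈ A)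
    (hop : ∀ k l, k ≠ l → x k ^ n ≠ (x l ^ n)⁻¹)
    (f : GQ → ℝ) (c B : ℝ) (hf : ∀ g, |f g - c| ≤ B)
    (hrel : ∀ g : GQ, ∑ k, Real.log ‖ι (g (x k ^ n))‖ = f g) :
    ∑ k, ((n : ℝ) * Real.log ‖ι (x k)‖) ^ 2 ≤ B ^ 2 := by
  classical
  have hn' : (0 : ℝ) < n := Nat.cast_pos.2 hn
  have htn' : ∀ x ∈ A, ∀ y ∈ A, (∃ r : ℕ, 0 < r ∧ x ^ r = y ^ r) → x ^ n = y ^ n := by
    intro x hx y hy h
    obtain ⟨d, rfl⟩ := htn
    rw [pow_mul, pow_mul, ht x hx y hy h]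
  obtain ⟨kc, hkc⟩ := H.exists_inv
  -- the bound without the constant
  have hf' : ∀ g, |f g| ≤ B := by
    intro g
    have h1 : f (g * kc) = - f g := by
      rw [← hrel, ← hrel, ← Finset.sum_neg_distrib]
      refine Finset.sum_congr rfl fun k _ => ?_
      have h2 : (g * kc) (x k ^ n) = (g (x k ^ n))⁻¹ := by
        change g (kc (x k ^ n)) = _
        rw [map_pow, hkc _ (hx k), inv_pow, map_inv₀]
      rw [h2, map_inv₀, norm_inv, Real.log_inv]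
    have h2 := abs_le.1 (hf g)
    have h3 := abs_le.1 (hf (g * kc))
    rw [h1] at h3
    rw [abs_le]
    constructor <;> linarith [h2.1, h2.2, h3.1, h3.2]
  have hB0 : 0 ≤ B := (abs_nonneg _).trans (hf' 1)
  -- the finite group
  let X : Type := {y : Qb // y ∈ A}
  let ac : GQ →* Equiv.Perm X :=
    { toFun := fun g =>
        { toFun := fun y => ⟨g y.1, H.conj g y.1 y.2⟩
          invFun := fun y => ⟨g⁻¹ y.1, H.conj g⁻¹ y.1 y.2⟩
          left_inv := fun y => Subtype.ext (by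
            change (g⁻¹ * g) y.1 = y.1
            rw [inv_mul_cancel]
            rfl)
          right_inv := fun y => Subtype.ext (by
            change (g * g⁻¹) y.1 = y.1
            rw [mul_inv_cancel]
            rfl) }
      map_one' := Equiv.ext fun y => rfl
      map_mul' := fun g h => Equiv.ext fun y => rfl }
  let Γ : Subgroup (Equiv.Perm X) := ac.range
  have hfinX : Finite X := inferInstance
  have hfin : Finite (Equiv.Perm X) := inferInstance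
  let _ : Fintype Γ := Fintype.ofFinite Γ
  let v : X → ℝ := fun y => Real.log ‖ι y.1‖
  let X0 : S → X := fun k => ⟨x k, hx k⟩
  have hlog : ∀ (g : GQ) (k : S), Real.log ‖ι (g (x k ^ n))‖ = n * v (ac g (X0 k)) := by
    intro g k
    change _ = (n : ℝ) * Real.log ‖ι (g (x k))‖
    rw [map_pow, map_pow, norm_pow, Real.log_pow]
  have hT : ∀ γ : Γ, |∑ k, (n : ℝ) * v (γ.1 (X0 k))| ≤ B := by
    rintro ⟨_, g, rfl⟩
    have h1 := hf' g
    rw [← hrel g, Finset.sum_congr rfl fun k _ => hlog g k] at h1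
    exact h1
  have hcard : (0 : ℝ) < Fintype.card Γ := Nat.cast_pos.2 Fintype.card_pos
  -- the diagonal
  have hdiag : ∀ k, ∑ γ : Γ, ((n : ℝ) * v (γ.1 (X0 k))) * ((n : ℝ) * v (γ.1 (X0 k))) =
      Fintype.card Γ * ((n : ℝ) * Real.log ‖ι (x k)‖) ^ 2 := by
    intro k
    have h1 : ∀ γ : Γ, ((n : ℝ) * v (γ.1 (X0 k))) * ((n : ℝ) * v (γ.1 (X0 k))) =
        ((n : ℝ) * Real.log ‖ι (x k)‖) ^ 2 := by
      rintro ⟨_, g, rfl⟩
      have h2 := H.slope (x k) (hx k) (ι.comp (g : Qb →+* Qb)) ι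
      change |Real.log ‖ι (g (x k))‖| = _ at h2
      change ((n : ℝ) * Real.log ‖ι (g (x k))‖) * ((n : ℝ) * Real.log ‖ι (g (x k))‖) = _
      rw [← sq, mul_pow, mul_pow, ← sq_abs (Real.log ‖ι (g (x k))‖), h2, sq_abs]
    rw [Finset.sum_congr rfl fun γ _ => h1 γ, Finset.sum_const, Finset.card_univ, nsmul_eq_mul]
  -- off the diagonal
  have hoff : ∀ k l, k ≠ l → 0 ≤ ∑ γ : Γ, ((n : ℝ) * v (γ.1 (X0 k))) *
      ((n : ℝ) * v (γ.1 (X0 l))) := by
    intro k l hkl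
    by_cases hk0 : Real.log ‖ι (x k)‖ = 0
    · refine Finset.sum_nonneg ?_
      rintro ⟨_, g, rfl⟩ _
      have h2 := H.log_zero (hx k) hk0 (ι.comp (g : Qb →+* Qb))
      change 0 ≤ ((n : ℝ) * Real.log ‖ι (g (x k))‖) * _
      change Real.log ‖ι (g (x k))‖ = 0 at h2
      rw [h2, mul_zero, zero_mul]
    by_cases hl0 : Real.log ‖ι (x l)‖ = 0
    · refine Finset.sum_nonneg ?_
      rintro ⟨_, g, rfl⟩ _
      have h2 := H.log_zero (hx l) hl0 (ι.comp (g : Qb →+* Qb))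
      change 0 ≤ _ * ((n : ℝ) * Real.log ‖ι (g (x l))‖)
      change Real.log ‖ι (g (x l))‖ = 0 at h2
      rw [h2, mul_zero, mul_zero]
    rcases H.orth ι (hx k) (hx l) hk0 hl0 with ⟨c, hc⟩ | ⟨t, ht⟩
    · obtain ⟨r, hr, h | h⟩ := H.prop ι (hx k) (hx l) hk0 hl0 c hc
      · have h1 := htn' (x l) (hx l) (x k) (hx k) ⟨r, hr, h⟩
        refine Finset.sum_nonneg ?_
        rintro ⟨_, g, rfl⟩ _
        have h2 : (n : ℝ) * v (ac g (X0 l)) = n * v (ac g (X0 k)) := by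
          rw [← hlog, ← hlog, h1]
        change 0 ≤ ((n : ℝ) * v (ac g (X0 k))) * ((n : ℝ) * v (ac g (X0 l)))
        rw [h2]
        exact mul_self_nonneg _
      · have h1 := htn' (x l) (hx l) (x k)⁻¹ (H.inv_mem (hx k)) ⟨r, hr, h⟩
        rw [inv_pow] at h1
        exact absurd h1 (hop l k hkl.symm)
    · have h1 : ∑ γ : Γ, ((n : ℝ) * v (γ.1 (X0 k))) * ((n : ℝ) * v (γ.1 (X0 l))) =
          ∑ γ : Γ, -(((n : ℝ) * v (γ.1 (X0 k))) * ((n : ℝ) * v (γ.1 (X0 l)))) := by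
        symm
        refine Fintype.sum_equiv (Equiv.mulRight (⟨ac t, t, rfl⟩ : Γ)) _ _ ?_
        rintro ⟨_, g, rfl⟩
        have h2 := ht g
        change -(((n : ℝ) * Real.log ‖ι (g (x k))‖) * ((n : ℝ) * Real.log ‖ι (g (x l))‖)) =
          ((n : ℝ) * Real.log ‖ι ((g * t) (x k))‖) * ((n : ℝ) * Real.log ‖ι ((g * t) (x l))‖)
        linear_combination (-(n : ℝ) ^ 2) * h2
      rw [Finset.sum_neg_distrib] at h1
      linarith
  have h1 : ∑ γ : Γ, (∑ k, (n : ℝ) * v (γ.1 (X0 k))) ^ 2 =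
      ∑ k, ∑ l, ∑ γ : Γ, ((n : ℝ) * v (γ.1 (X0 k))) * ((n : ℝ) * v (γ.1 (X0 l))) := by
    have h2 : ∀ γ : Γ, (∑ k, (n : ℝ) * v (γ.1 (X0 k))) ^ 2 =
        ∑ k, ∑ l, ((n : ℝ) * v (γ.1 (X0 k))) * ((n : ℝ) * v (γ.1 (X0 l))) := by
      intro γ
      rw [sq, Finset.sum_mul_sum]
    rw [Finset.sum_congr rfl fun γ _ => h2 γ, Finset.sum_comm]
    refine Finset.sum_congr rfl fun k _ => ?_
    rw [Finset.sum_comm]
  have h2 : ∑ k, (Fintype.card Γ : ℝ) * ((n : ℝ) * Real.log ‖ι (x k)‖) ^ 2 ≤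
      ∑ k, ∑ l, ∑ γ : Γ, ((n : ℝ) * v (γ.1 (X0 k))) * ((n : ℝ) * v (γ.1 (X0 l))) := by
    refine Finset.sum_le_sum fun k _ => ?_
    rw [← hdiag k]
    refine Finset.single_le_sum (f := fun l => ∑ γ : Γ, ((n : ℝ) * v (γ.1 (X0 k))) *
      ((n : ℝ) * v (γ.1 (X0 l)))) (fun l _ => ?_) (Finset.mem_univ k)
    by_cases hkl : k = l
    · subst hkl
      rw [hdiag k]
      positivity
    · exact hoff k l hkl
  have h3 : ∑ γ : Γ, (∑ k, (n : ℝ) * v (γ.1 (X0 k))) ^ 2 ≤ ∑ _γ : Γ, B ^ 2 :=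
    Finset.sum_le_sum fun γ _ => sq_le_sq' (abs_le.1 (hT γ)).1 (abs_le.1 (hT γ)).2
  rw [Finset.sum_const, Finset.card_univ, nsmul_eq_mul] at h3
  rw [← Finset.mul_sum] at h2
  rw [h1] at h3
  exact le_of_mul_le_mul_left (h2.trans h3) hcard

end

end Pool.Agent.KS6_5.OC
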