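import Pool.Agent.KS6_5.OC.LTwo
import Pool.Agent.KS6_5.OC.Defs
import Pool.Agent.KS6_5.SP.Place

/-!
# The numbers `z ^ 2 / q`
-/

set_option autoImplicit false
set_option linter.unusedSectionVars false

namespace Pool.Agent.KS6_5.OC

open NumberField Polynomial Pool.Agent.TH121.KT Pool.Agent.KS6_5.SP Pool.Agent.W902.TB

noncomputable section

variable {p : ℕ} [Fact p.Prime]

theorem aeval_aut {P : ℤ[X]} {z : Qb} (h : aeval z P = 0) (g : GQ) : aeval (g z) P = 0 := by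
  have h1 : g (aeval z P) = aeval (g z) P := by
    rw [aeval_def, aeval_def]
    have h2 := Polynomial.hom_eval₂ P (algebraMap ℤ Qb) (g : Qb →+* Qb) z
    rw [show ((g : Qb →+* Qb).comp (algebraMap ℤ Qb)) = algebraMap ℤ Qb from
      RingHom.ext_int _ _] at h2
    exact h2
  rw [← h1, h, map_zero]

theorem norm_q (a : ℕ) : ‖((p ^ a : ℕ) : PadicAlgCl p)‖ = ((p ^ a : ℕ) : ℝ)⁻¹ := by
  have h4 : (p : PadicAlgCl p) = algebraMap ℚ_[p] (PadicAlgCl p) (p : ℚ_[p]) := by simp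
  rw [Nat.cast_pow, norm_pow, h4, PadicAlgCl.norm_extends, Padic.norm_p, Nat.cast_pow, inv_pow]

variable {a : ℕ} {P : ℤ[X]} {δ : ℝ}

/-- complex conjugation on the roots -/
theorem HasSlopes.exists_conj : ∃ k : GQ, ∀ (P : ℤ[X]) (δ : ℝ), HasSlopes p (p ^ a) δ P → ∀ z : Qb,
    aeval z P = 0 → z * k z = ((p ^ a : ℕ) : Qb) := by
  obtain ⟨φ₀⟩ : Nonempty (Qb →ₐ[ℚ] ℂ) := ⟨IsAlgClosed.lift⟩
  let φ : Qb →+* ℂ := φ₀.toRingHom
  obtain ⟨k, hk⟩ := exists_aut φ ((starRingEnd ℂ).comp φ)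
  refine ⟨k, fun P δ H z hz => φ.injective ?_⟩
  rw [map_mul, ← hk, map_natCast]
  have h1 := H.weil z hz φ
  change φ z * (starRingEnd ℂ) (φ z) = _
  rw [Complex.mul_conj, Complex.normSq_eq_norm_sq, h1]
  simp

theorem HasSlopes.ne_zero (H : HasSlopes p (p ^ a) δ P) {z : Qb} (hz : aeval z P = 0) : z ≠ 0 := by
  obtain ⟨k, hk⟩ := HasSlopes.exists_conj (p := p) (a := a)
  have h1 := hk P δ H z hz
  intro h0
  rw [h0, zero_mul] at h1
  have hq : ((p ^ a : ℕ) : Qb) ≠ 0 := Nat.cast_ne_zero.2 (pow_ne_zero _ (Fact.out : p.Prime).ne_zero)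
  exact hq h1.symm

theorem HasSlopes.unit_away (H : HasSlopes p (p ^ a) δ P) {z : Qb} (hz : aeval z P = 0)
    (l : ℕ) [Fact l.Prime] (hl : l ≠ p) (y : Qb →+* PadicAlgCl l) : ‖y z‖ = 1 := by
  obtain ⟨k, hk⟩ := HasSlopes.exists_conj (p := p) (a := a)
  have h1 := hk P δ H z hz
  have key : ∀ w : Qb, aeval w P = 0 → ‖y w‖ ≤ 1 := by
    intro w hw
    have hint : IsIntegral ℤ w := ⟨P, H.monic, hw⟩
    exact norm_le_one_of_isIntegral _ (hint.map y.toIntAlgHom)
  have h2 := key z hz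
  have h3 := key (k z) (aeval_aut hz k)
  have h4 := congrArg (fun x => ‖y x‖) h1
  simp only [map_mul, norm_mul, map_natCast] at h4
  have hp1 : ‖(p : PadicAlgCl l)‖ = 1 := by
    have h4 : (p : PadicAlgCl l) = algebraMap ℚ_[l] (PadicAlgCl l) (p : ℚ_[l]) := by simp
    rw [h4, PadicAlgCl.norm_extends, Padic.norm_natCast_eq_one_iff]
    exact (Nat.coprime_primes (Fact.out : l.Prime) (Fact.out : p.Prime)).2 hl
  rw [Nat.cast_pow, norm_pow, hp1, one_pow] at h4
  nlinarith [norm_nonneg (y z), norm_nonneg (y (k z))]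

/-- the slopes of the letters -/
theorem HasSlopes.log_letter (H : HasSlopes p (p ^ a) δ P) (hδ : 0 ≤ δ) {z : Qb}
    (hz : aeval z P = 0) (l : Qb →+* PadicAlgCl p) :
    |Real.log ‖l (z ^ 2 / ((p ^ a : ℕ) : Qb))‖| = 2 * δ * Real.log ((p ^ a : ℕ) : ℝ) := by
  have hq : (0 : ℝ) < ((p ^ a : ℕ) : ℝ) := Nat.cast_pos.2 (pow_pos (Fact.out : p.Prime).pos _)
  have hq1 : (1 : ℝ) ≤ ((p ^ a : ℕ) : ℝ) := by
    exact_mod_cast Nat.one_le_pow _ _ (Fact.out : p.Prime).pos
  have hlq : 0 ≤ Real.log ((p ^ a : ℕ) : ℝ) := Real.log_nonneg hq1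
  have hz0 : ‖l z‖ ≠ 0 := norm_ne_zero_iff.2 ((_root_.map_ne_zero l).2 (H.ne_zero hz))
  rw [map_div₀, map_pow, map_natCast, norm_div, norm_pow, norm_q, Real.log_div (pow_ne_zero _ hz0)
    (inv_ne_zero hq.ne'), Real.log_pow, Real.log_inv]
  rcases H.slope z hz l with h | h
  · rw [h, Real.log_rpow hq]
    rw [show ((2 : ℕ) : ℝ) * (-(1 / 2 + δ) * Real.log ((p ^ a : ℕ) : ℝ)) -
      -Real.log ((p ^ a : ℕ) : ℝ) = -(2 * δ * Real.log ((p ^ a : ℕ) : ℝ)) by push_cast; ring,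
      abs_neg, abs_of_nonneg (by positivity)]
  · rw [h, Real.log_rpow hq]
    rw [show ((2 : ℕ) : ℝ) * (-(1 / 2 - δ) * Real.log ((p ^ a : ℕ) : ℝ)) -
      -Real.log ((p ^ a : ℕ) : ℝ) = (2 * δ * Real.log ((p ^ a : ℕ) : ℝ)) by push_cast; ring,
      abs_of_nonneg (by positivity)]

/-- fields with one place -/
theorem place_of_unique (F : IntermediateField ℚ Qb) [FiniteDimensional ℚ F]
    (h : ∃! Q : Ideal (𝓞 F), Q.IsPrime ∧ (p : 𝓞 F) ∈ Q) (l l' : Qb →+* PadicAlgCl p) (z : Qb)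
    (hz : z ∈ F) : ‖l z‖ = ‖l' z‖ := by
  have hnf : NumberField F := ⟨⟩
  obtain ⟨P, -, hP⟩ := h
  let e : F →+* PadicAlgCl p := l.comp (algebraMap F Qb)
  let e' : F →+* PadicAlgCl p := l'.comp (algebraMap F Qb)
  have h1 : idl e = P := hP _ ⟨idl_prime e, p_mem e⟩
  have h2 : idl e' = P := hP _ ⟨idl_prime e', p_mem e'⟩
  exact norm_eq_of_ideal e e' (h1.trans h2.symm) ⟨z, hz⟩

variable {κ : Type} [Fintype κ]

/-- the set of all letters -/
def allLetters (p a : ℕ) (P : κ → ℤ[X]) : Finset Qb := by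
  classical
  exact insert 1 (Finset.univ.biUnion fun k =>
    ((P k).aroots Qb).toFinset.image fun z => z ^ 2 / ((p ^ a : ℕ) : Qb))

theorem mem_allLetters {P : κ → ℤ[X]} (hP : ∀ k, (P k).Monic) {x : Qb} :
    x ∈ allLetters p a P ↔ x = 1 ∨ ∃ k, ∃ z : Qb, aeval z (P k) = 0 ∧
      x = z ^ 2 / ((p ^ a : ℕ) : Qb) := by
  classical
  unfold allLetters
  rw [Finset.mem_insert, Finset.mem_biUnion]
  constructor
  · rintro (h | ⟨k, -, h⟩)
    · exact Or.inl h
    · obtain ⟨z, hz, rfl⟩ := Finset.mem_image.1 h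
      rw [Multiset.mem_toFinset, mem_aroots] at hz
      exact Or.inr ⟨k, z, hz.2, rfl⟩
  · rintro (h | ⟨k, z, hz, rfl⟩)
    · exact Or.inl h
    · refine Or.inr ⟨k, Finset.mem_univ k, Finset.mem_image.2 ⟨z, ?_, rfl⟩⟩
      rw [Multiset.mem_toFinset, mem_aroots]
      exact ⟨(hP k).ne_zero, hz⟩

/-- **The letters.** -/
theorem letters_of (P : κ → ℤ[X]) (δ : κ → ℝ) (hδ : ∀ k, 0 ≤ δ k)
    (hP : ∀ k, HasSlopes p (p ^ a) (δ k) (P k))
    (hF : ∀ k, 0 < δ k → RealFieldsOnePlace p (p ^ a) (P k))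
    (hI : ∀ k l, 0 < δ k → 0 < δ l → δ k ≠ δ l → Incommensurable (p ^ a) (P k) (P l)) :
    Letters p (allLetters p a P) := by
  have hm : ∀ k, (P k).Monic := fun k => (hP k).monic
  have hq0 : ((p ^ a : ℕ) : Qb) ≠ 0 :=
    Nat.cast_ne_zero.2 (pow_ne_zero _ (Fact.out : p.Prime).ne_zero)
  have hqR : (0 : ℝ) < ((p ^ a : ℕ) : ℝ) := Nat.cast_pos.2 (pow_pos (Fact.out : p.Prime).pos _)
  refine ⟨?_, ?_, ?_, ?_, ?_, ?_, ?_⟩
  · exact (mem_allLetters hm).2 (Or.inl rfl)
  · intro h x hx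
    rcases (mem_allLetters hm).1 hx with rfl | ⟨k, z, hz, rfl⟩
    · rw [map_one]
      exact hx
    · refine (mem_allLetters hm).2 (Or.inr ⟨k, h z, aeval_aut hz h, ?_⟩)
      rw [map_div₀, map_pow, map_natCast]
  · intro x hx φ
    rcases (mem_allLetters hm).1 hx with rfl | ⟨k, z, hz, rfl⟩
    · rw [map_one, norm_one]
    · rw [map_div₀, map_pow, map_natCast, norm_div, norm_pow, (hP k).weil z hz φ]
      simp only [Complex.norm_natCast]
      exact div_self hqR.ne'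
  · intro x hx l _ hl y
    rcases (mem_allLetters hm).1 hx with rfl | ⟨k, z, hz, rfl⟩
    · rw [map_one, norm_one]
    · have hp1 : ‖(p : PadicAlgCl l)‖ = 1 := by
        have h4 : (p : PadicAlgCl l) = algebraMap ℚ_[l] (PadicAlgCl l) (p : ℚ_[l]) := by simp
        rw [h4, PadicAlgCl.norm_extends, Padic.norm_natCast_eq_one_iff]
        exact (Nat.coprime_primes (Fact.out : l.Prime) (Fact.out : p.Prime)).2 hl
      rw [map_div₀, map_pow, map_natCast, norm_div, norm_pow, (hP k).unit_away hz l hl y,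
        Nat.cast_pow, norm_pow, hp1]
      simp
  · intro x hx l l'
    rcases (mem_allLetters hm).1 hx with rfl | ⟨k, z, hz, rfl⟩
    · rw [map_one, map_one, norm_one]
    · rw [(hP k).log_letter (hδ k) hz l, (hP k).log_letter (hδ k) hz l']
  · rintro x hx ⟨l, hl⟩
    rcases (mem_allLetters hm).1 hx with rfl | ⟨k, z, hz, rfl⟩
    · rw [map_one, norm_one, Real.log_one] at hl
      exact absurd rfl hl
    · have hpos : 0 < δ k := by
        refine lt_of_le_of_ne (hδ k) fun h0 => hl ?_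
        have h1 := (hP k).log_letter (hδ k) hz l
        rw [← h0, mul_zero, zero_mul, abs_eq_zero] at h1
        exact h1
      obtain ⟨m, hm0, F, hfd, hgal, ht, hu, hS⟩ := hF k hpos z hz
      refine ⟨m, F, hm0, hfd, inferInstance, ?_,
        fun l l' z hz => place_of_unique F hu l l' z hz, hS⟩
      intro h hh
      have hz0 := (hP k).ne_zero hz
      have hhz0 : h z ≠ 0 := (map_ne_zero_iff h h.injective).2 hz0
      have h1 := hh _ ht
      rw [map_add, map_pow, map_pow, map_div₀, map_natCast, div_pow, div_pow] at h1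
      have hzm : z ^ m ≠ 0 := pow_ne_zero _ hz0
      have hhzm : (h z) ^ m ≠ 0 := pow_ne_zero _ hhz0
      have h2 : ((h z) ^ m - z ^ m) * ((h z) ^ m * z ^ m - ((p ^ a : ℕ) : Qb) ^ m) = 0 := by
        field_simp at h1
        linear_combination h1
      rcases mul_eq_zero.1 h2 with h3 | h3
      · left
        rw [map_pow, map_div₀, map_pow, map_natCast, div_pow, div_pow, ← pow_mul, ← pow_mul,
          mul_comm 2 m, pow_mul, pow_mul, sub_eq_zero.1 h3]
      · right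
        have h4 : (h z) ^ m * z ^ m = ((p ^ a : ℕ) : Qb) ^ m := sub_eq_zero.1 h3
        rw [map_pow, map_div₀, map_pow, map_natCast, div_pow, div_pow, inv_div, ← pow_mul,
          ← pow_mul, mul_comm 2 m, pow_mul, pow_mul, div_eq_div_iff (pow_ne_zero _ hq0)
          (pow_ne_zero _ hzm), ← mul_pow, h4, sq]
  · intro x hx y hy r s hr hs hxy l
    have hr' : (r : ℝ) ≠ 0 := Nat.cast_ne_zero.2 hr.ne'
    have hs' : (s : ℝ) ≠ 0 := Nat.cast_ne_zero.2 hs.ne'
    have hlog : (r : ℝ) * Real.log ‖l x‖ = s * Real.log ‖l y‖ := by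
      have h1 := congrArg (fun w => Real.log ‖l w‖) hxy
      simp only [map_pow, norm_pow, Real.log_pow] at h1
      exact h1
    rcases (mem_allLetters hm).1 hx with rfl | ⟨k, z, hz, rfl⟩
    · rw [map_one, norm_one, Real.log_one, mul_zero] at hlog
      rw [map_one, norm_one, Real.log_one, (mul_eq_zero.1 hlog.symm).resolve_left hs']
    rcases (mem_allLetters hm).1 hy with rfl | ⟨k', z', hz', rfl⟩
    · rw [map_one, norm_one, Real.log_one, mul_zero] at hlog
      rw [map_one, norm_one, Real.log_one, (mul_eq_zero.1 hlog).resolve_left hr']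
    rw [(hP k).log_letter (hδ k) hz l, (hP k').log_letter (hδ k') hz' l]
    by_cases hkk : δ k = δ k'
    · rw [hkk]
    rcases (hδ k).eq_or_lt with h0 | h0
    · have h1 := (hP k).log_letter (hδ k) hz l
      rw [← h0, mul_zero, zero_mul, abs_eq_zero] at h1
      rw [h1, mul_zero] at hlog
      have h2 := (mul_eq_zero.1 hlog.symm).resolve_left hs'
      have h3 := (hP k').log_letter (hδ k') hz' l
      rw [h2, abs_zero] at h3
      rw [← h0, mul_zero, zero_mul, h3]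
    rcases (hδ k').eq_or_lt with h0' | h0'
    · have h1 := (hP k').log_letter (hδ k') hz' l
      rw [← h0', mul_zero, zero_mul, abs_eq_zero] at h1
      rw [h1, mul_zero] at hlog
      have h2 := (mul_eq_zero.1 hlog).resolve_left hr'
      have h3 := (hP k).log_letter (hδ k) hz l
      rw [h2, abs_zero] at h3
      rw [← h0', mul_zero, zero_mul, ← h3]
    exact absurd hxy (hI k k' h0 h0' hkk z z' hz hz' r s hr hs)

end

end Pool.Agent.KS6_5.OC
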