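import Mathlib

/-!
# Groups with cyclic Sylow `2`-subgroups have few characters with values `± 1`
-/

set_option autoImplicit false

namespace Pool.Agent.KS6_5.OC

/-- The group of pairs of signs is not a quotient of a finite group with cyclic Sylow
`2`-subgroups. -/
theorem not_surjective {U : Type*} [Group U] [Finite U] (hS : ∀ P : Sylow 2 U, IsCyclic P)
    (Ψ : U →* ℤˣ × ℤˣ) : ¬ Function.Surjective Ψ := by
  intro hΨ
  have hf : Fact (Nat.Prime 2) := ⟨Nat.prime_two⟩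
  let P : Sylow 2 U := default
  have h2 : IsPGroup 2 (ℤˣ × ℤˣ) := IsPGroup.of_card (n := 2) (by
    rw [Nat.card_prod, Nat.card_eq_fintype_card]
    rfl)
  let P' : Sylow 2 (ℤˣ × ℤˣ) := P.mapSurjective hΨ
  have htop : (P' : Subgroup (ℤˣ × ℤˣ)) = ⊤ := by
    have h3 : IsPGroup 2 (⊤ : Subgroup (ℤˣ × ℤˣ)) := h2.to_subgroup ⊤
    exact (P'.is_maximal' h3 le_top).symm
  have hmap : (P : Subgroup U).map Ψ = ⊤ := htop
  have hP := hS P
  obtain ⟨g, hg⟩ := hP.exists_generator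
  have key : ∀ y : ℤˣ × ℤˣ, y = 1 ∨ y = Ψ g := by
    intro y
    have hy : y ∈ (P : Subgroup U).map Ψ := by rw [hmap]; trivial
    obtain ⟨x, hx, rfl⟩ := hy
    obtain ⟨n, hn⟩ := hg ⟨x, hx⟩
    have hn' : (g : U) ^ n = x := congrArg Subtype.val hn
    rw [← hn', map_zpow]
    have hsq : Ψ g * Ψ g = 1 := by
      ext <;> simp
    rcases Int.even_or_odd' n with ⟨m, rfl | rfl⟩
    · left
      rw [two_mul, zpow_add, ← mul_zpow, hsq, one_zpow]
    · right
      rw [zpow_add, two_mul, zpow_add, ← mul_zpow, hsq, one_zpow, one_mul, zpow_one]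
  rcases key (1, -1) with h | h
  · exact absurd (congrArg Prod.snd h) (by decide)
  · rcases key (-1, 1) with h' | h'
    · exact absurd (congrArg Prod.fst h') (by decide)
    · rw [← h] at h'
      exact absurd (congrArg Prod.fst h') (by decide)

/-- subgroups of groups with cyclic Sylow subgroups -/
theorem cyclic_sub {Q : Type*} [Group Q] [Finite Q] (hS : ∀ P : Sylow 2 Q, IsCyclic P)
    (U : Subgroup Q) (P : Sylow 2 U) : IsCyclic P := by
  have h1 : IsPGroup 2 ((P : Subgroup U).map U.subtype) := P.isPGroup'.map U.subtype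
  obtain ⟨S, hS'⟩ := h1.exists_le_sylow
  have hc := hS S
  have h2 : IsCyclic ((P : Subgroup U).map U.subtype) := by
    have h3 : Function.Injective (Subgroup.inclusion hS') := Subgroup.inclusion_injective hS'
    exact isCyclic_of_injective (Subgroup.inclusion hS') h3
  have e : (P : Subgroup U) ≃* (P : Subgroup U).map U.subtype :=
    (P : Subgroup U).equivMapOfInjective U.subtype U.subtype_injective
  exact isCyclic_of_injective e.toMonoidHom e.injective

theorem character_unique {G Q : Type*} [Group G] [Group Q] [Finite Q] (π : G →* Q)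
    (hS : ∀ P : Sylow 2 Q, IsCyclic P) (H : Subgroup G) (χ₁ χ₂ : H →* ℤˣ)
    (k₁ : ∀ k : H, (k : G) ∈ π.ker → χ₁ k = 1) (k₂ : ∀ k : H, (k : G) ∈ π.ker → χ₂ k = 1)
    (n₁ : χ₁ ≠ 1) (n₂ : χ₂ ≠ 1) : χ₁ = χ₂ := by
  by_contra hne
  let Ψ₀ : H →* ℤˣ × ℤˣ := χ₁.prod χ₂
  have hΨ₀ : ∀ h, Ψ₀ h = (χ₁ h, χ₂ h) := fun h => rfl
  have hpm : ∀ u : ℤˣ, u ≠ 1 → u = -1 := fun u hu => (Int.units_eq_one_or u).resolve_left hu
  -- two elements
  obtain ⟨a, ha⟩ : ∃ a, χ₁ a = -1 := by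
    by_contra hc
    push Not at hc
    exact n₁ (MonoidHom.ext fun x => (Int.units_eq_one_or _).resolve_right (hc x))
  obtain ⟨b, hb⟩ : ∃ b, χ₂ b = -1 := by
    by_contra hc
    push Not at hc
    exact n₂ (MonoidHom.ext fun x => (Int.units_eq_one_or _).resolve_right (hc x))
  obtain ⟨c, hc⟩ : ∃ c, χ₁ c ≠ χ₂ c := by
    by_contra hc
    push Not at hc
    exact hne (MonoidHom.ext hc)
  have hdata : ∃ x y, Ψ₀ x = (-1, 1) ∧ Ψ₀ y = (1, -1) := by
    rcases Int.units_eq_one_or (χ₁ c) with e1 | e1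
    · have e2 : χ₂ c = -1 := hpm _ (fun h => hc (e1.trans h.symm))
      rcases Int.units_eq_one_or (χ₂ a) with e3 | e3
      · exact ⟨a, c, by rw [hΨ₀, ha, e3], by rw [hΨ₀, e1, e2]⟩
      · exact ⟨a * c, c, by rw [hΨ₀, map_mul, map_mul, ha, e3, e1, e2]; rfl, by rw [hΨ₀, e1, e2]⟩
    · have e2 : χ₂ c = 1 := by
        rcases Int.units_eq_one_or (χ₂ c) with h | h
        · exact h
        · exact absurd (e1.trans h.symm) hc
      rcases Int.units_eq_one_or (χ₁ b) with e3 | e3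
      · exact ⟨c, b, by rw [hΨ₀, e1, e2], by rw [hΨ₀, e3, hb]⟩
      · exact ⟨c, b * c, by rw [hΨ₀, e1, e2], by rw [hΨ₀, map_mul, map_mul, e3, hb, e1, e2]; rfl⟩
  obtain ⟨x, y, hx, hy⟩ := hdata
  have hsurj : Function.Surjective Ψ₀ := by
    rintro ⟨u, v⟩
    rcases Int.units_eq_one_or u with rfl | rfl <;> rcases Int.units_eq_one_or v with rfl | rfl
    · exact ⟨1, map_one _⟩
    · exact ⟨y, hy⟩
    · exact ⟨x, hx⟩
    · exact ⟨x * y, by rw [map_mul, hx, hy]; rfl⟩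
  let φ : H →* H.map π := π.subgroupMap H
  have hφ : Function.Surjective φ := π.subgroupMap_surjective H
  have hker : φ.ker ≤ Ψ₀.ker := by
    intro k hk
    have h1 : π k = 1 := congrArg Subtype.val ((MonoidHom.mem_ker).1 hk)
    rw [MonoidHom.mem_ker, hΨ₀, k₁ k h1, k₂ k h1]
    rfl
  let Ψ : H.map π →* ℤˣ × ℤˣ := φ.liftOfSurjective hφ ⟨Ψ₀, hker⟩
  have hΨ : ∀ h, Ψ (φ h) = Ψ₀ h := fun h =>
    MonoidHom.liftOfRightInverse_comp_apply φ _ _ ⟨Ψ₀, hker⟩ h
  refine not_surjective (fun P => cyclic_sub hS (H.map π) P) Ψ ?_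
  intro z
  obtain ⟨h, hh⟩ := hsurj z
  exact ⟨φ h, (hΨ h).trans hh⟩

end Pool.Agent.KS6_5.OC
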