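import Pool.Agent.KS6_5.OC.Dich
import Pool.Agent.KS6_5.OC.Syl
import Pool.Agent.KS6_5.SP.Gal

/-!
# Weil numbers with one pair of slopes over different real fields
-/

set_option autoImplicit false
set_option linter.unusedSectionVars false

namespace Pool.Agent.KS6_5.OC

open NumberField Polynomial Pool.Agent.TH121.KT Pool.Agent.KS6_5.SP

noncomputable section

variable {p : ℕ} [Fact p.Prime]

/-- A finite set of Weil numbers of weight zero, stable under conjugation, the slopes of each of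
which are all equal up to the sign, on which the automorphisms over Galois fields with one
place above `p` and with cyclic Sylow `2`-subgroups act by signs. -/
structure Letters (p : ℕ) [Fact p.Prime] (A : Finset Qb) : Prop where
  one : (1 : Qb) ∈ A
  conj : ∀ (h : GQ), ∀ x ∈ A, h x ∈ A
  unitary : ∀ x ∈ A, ∀ φ : Qb →+* ℂ, ‖φ x‖ = 1
  away : ∀ x ∈ A, ∀ (l : ℕ) [Fact l.Prime], l ≠ p → ∀ y : Qb →+* PadicAlgCl l, ‖y x‖ = 1
  slope : ∀ x ∈ A, ∀ l l' : Qb →+* PadicAlgCl p, |Real.log ‖l x‖| = |Real.log ‖l' x‖|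
  field : ∀ x ∈ A, (∃ l : Qb →+* PadicAlgCl p, Real.log ‖l x‖ ≠ 0) →
    ∃ (m : ℕ) (F : IntermediateField ℚ Qb), 0 < m ∧ FiniteDimensional ℚ F ∧ Normal ℚ F ∧
      (∀ h : GQ, (∀ z ∈ F, h z = z) → h (x ^ m) = x ^ m ∨ h (x ^ m) = (x ^ m)⁻¹) ∧
      (∀ (l l' : Qb →+* PadicAlgCl p), ∀ z ∈ F, ‖l z‖ = ‖l' z‖) ∧
      ∀ S : Sylow 2 (F ≃ₐ[ℚ] F), IsCyclic S
  comm : ∀ x ∈ A, ∀ y ∈ A, ∀ r s : ℕ, 0 < r → 0 < s → x ^ r = y ^ s →
    ∀ l : Qb →+* PadicAlgCl p, |Real.log ‖l x‖| = |Real.log ‖l y‖|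

variable {A : Finset Qb}

theorem Letters.ne_zero (H : Letters p A) {x : Qb} (hx : x ∈ A) : x ≠ 0 := by
  rintro rfl
  obtain ⟨φ⟩ : Nonempty (Qb →ₐ[ℚ] ℂ) := ⟨IsAlgClosed.lift⟩
  have := H.unitary 0 hx φ.toRingHom
  rw [map_zero, norm_zero] at this
  exact zero_ne_one this

/-- complex conjugation -/
theorem Letters.exists_inv (H : Letters p A) : ∃ k : GQ, ∀ x ∈ A, k x = x⁻¹ := by
  obtain ⟨φ₀⟩ : Nonempty (Qb →ₐ[ℚ] ℂ) := ⟨IsAlgClosed.lift⟩
  let φ : Qb →+* ℂ := φ₀.toRingHom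
  obtain ⟨k, hk⟩ := exists_aut φ ((starRingEnd ℂ).comp φ)
  refine ⟨k, fun x hx => φ.injective ?_⟩
  rw [← hk, map_inv₀]
  have h1 := H.unitary x hx φ
  have h2 : φ x * (starRingEnd ℂ) (φ x) = 1 := by
    rw [Complex.mul_conj, Complex.normSq_eq_norm_sq, h1]
    simp
  exact eq_inv_of_mul_eq_one_right h2

theorem Letters.inv_mem (H : Letters p A) {x : Qb} (hx : x ∈ A) : x⁻¹ ∈ A := by
  obtain ⟨k, hk⟩ := H.exists_inv
  rw [← hk x hx]
  exact H.conj k x hx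

/-- Kronecker -/
theorem Letters.torsion (H : Letters p A) (ι : Qb →+* PadicAlgCl p) {x y : Qb} (hx : x ∈ A)
    (hy : y ∈ A) (m n : ℕ)
    (h : ∀ g : GQ, (m : ℝ) * Real.log ‖ι (g x)‖ = n * Real.log ‖ι (g y)‖) :
    ∃ r : ℕ, 0 < r ∧ x ^ (m * r) = y ^ (n * r) := by
  have hx0 := H.ne_zero hx
  have hy0 := H.ne_zero hy
  obtain ⟨r, hr, h1⟩ := torsion_of_norm (x ^ m / y ^ n) (fun l _ e => by
    by_cases hl : l = p
    · subst hl
      obtain ⟨k, hk⟩ := exists_aut ι e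
      rw [hk, map_div₀, map_div₀, map_pow, map_pow, map_pow, map_pow, norm_div, norm_pow, norm_pow]
      have h3 : 0 < ‖ι (k x)‖ := norm_pos_iff.2 ((_root_.map_ne_zero _).2
        ((_root_.map_ne_zero _).2 hx0))
      have h4 : 0 < ‖ι (k y)‖ := norm_pos_iff.2 ((_root_.map_ne_zero _).2
        ((_root_.map_ne_zero _).2 hy0))
      have h5 : Real.log (‖ι (k x)‖ ^ m / ‖ι (k y)‖ ^ n) = 0 := by
        rw [Real.log_div (pow_pos h3 _).ne' (pow_pos h4 _).ne', Real.log_pow, Real.log_pow, h,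
          sub_self]
      exact (Real.eq_one_of_pos_of_log_eq_zero (by positivity) h5).le
    · rw [map_div₀, map_pow, map_pow, norm_div, norm_pow, norm_pow, H.away x hx l hl e,
        H.away y hy l hl e]
      simp) (fun φ => by
    rw [map_div₀, map_pow, map_pow, norm_div, norm_pow, norm_pow, H.unitary x hx φ,
      H.unitary y hy φ]
    simp)
  refine ⟨r, hr, ?_⟩
  rw [div_pow, ← pow_mul, ← pow_mul, div_eq_one_iff_eq (pow_ne_zero _ hy0)] at h1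
  exact h1

theorem Letters.log_zero (H : Letters p A) {x : Qb} (hx : x ∈ A) {l : Qb →+* PadicAlgCl p}
    (h : Real.log ‖l x‖ = 0) (l' : Qb →+* PadicAlgCl p) : Real.log ‖l' x‖ = 0 := by
  have h1 := H.slope x hx l' l
  rw [h, abs_zero, abs_eq_zero] at h1
  exact h1

/-- numbers with slope zero -/
theorem Letters.root_of_unity (H : Letters p A) {ι : Qb →+* PadicAlgCl p} {x : Qb} (hx : x ∈ A)
    (h : Real.log ‖ι x‖ = 0) : ∃ r : ℕ, 0 < r ∧ x ^ r = 1 := by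
  obtain ⟨r, hr, h1⟩ := H.torsion ι hx H.one 1 1 (fun g => by
    have h2 := H.log_zero hx h (ι.comp (g : Qb →+* Qb))
    change Real.log ‖ι (g x)‖ = 0 at h2
    rw [h2, map_one, map_one, norm_one, Real.log_one])
  exact ⟨r, hr, by rwa [one_mul, one_pow] at h1⟩

/-- proportional slopes -/
theorem Letters.prop (H : Letters p A) (ι : Qb →+* PadicAlgCl p) {x y : Qb}
    (hx : x ∈ A) (hy : y ∈ A) (hx1 : Real.log ‖ι x‖ ≠ 0) (hy1 : Real.log ‖ι y‖ ≠ 0) (c : ℝ)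
    (hc : ∀ g : GQ, Real.log ‖ι (g y)‖ = c * Real.log ‖ι (g x)‖) :
    ∃ r : ℕ, 0 < r ∧ (y ^ r = x ^ r ∨ y ^ r = x⁻¹ ^ r) := by
  have key : ∀ z ∈ A, Real.log ‖ι z‖ ≠ 0 → ∀ d : ℝ, 0 ≤ d →
      (∀ g : GQ, Real.log ‖ι (g y)‖ = d * Real.log ‖ι (g z)‖) →
      ∃ r : ℕ, 0 < r ∧ y ^ r = z ^ r := by
    intro z hz hz1 d hd hg
    have hy0 : ι y ≠ 0 := (_root_.map_ne_zero _).2 (H.ne_zero hy)
    have hz0 : ι z ≠ 0 := (_root_.map_ne_zero _).2 (H.ne_zero hz)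
    obtain ⟨n₁, z₁, hn₁, e1⟩ := norm_pow_eq_zpow (ι z) hz0
    obtain ⟨n₂, z₂, hn₂, e2⟩ := norm_pow_eq_zpow (ι y) hy0
    have f1 : (n₁ : ℝ) * Real.log ‖ι z‖ = z₁ * Real.log p := by
      rw [← Real.log_pow, e1, Real.log_zpow]
    have f2 : (n₂ : ℝ) * Real.log ‖ι y‖ = z₂ * Real.log p := by
      rw [← Real.log_pow, e2, Real.log_zpow]
    have hlogp : 0 < Real.log p := Real.log_pos (by exact_mod_cast (Fact.out : p.Prime).one_lt)
    have hn1 : (0 : ℝ) < n₁ := Nat.cast_pos.2 hn₁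
    have hn2 : (0 : ℝ) < n₂ := Nat.cast_pos.2 hn₂
    have hz1' : (z₁ : ℝ) ≠ 0 := by
      intro h0
      rw [h0, zero_mul] at f1
      exact (mul_ne_zero hn1.ne' hz1) f1
    have hz2' : (z₂ : ℝ) ≠ 0 := by
      intro h0
      rw [h0, zero_mul] at f2
      exact (mul_ne_zero hn2.ne' hy1) f2
    have g1 := hg 1
    change Real.log ‖ι y‖ = d * Real.log ‖ι z‖ at g1
    have habs : ∀ z : ℤ, ((z.natAbs : ℕ) : ℝ) = |(z : ℝ)| := by
      intro z
      rw [← Int.cast_abs, Int.abs_eq_natAbs, Int.cast_natCast]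
    -- absolute values
    have a1 : (n₁ : ℝ) * |Real.log ‖ι z‖| = |(z₁ : ℝ)| * Real.log p := by
      rw [← abs_of_pos hn1, ← abs_mul, f1, abs_mul, abs_of_pos hlogp]
    have a2 : (n₂ : ℝ) * |Real.log ‖ι y‖| = |(z₂ : ℝ)| * Real.log p := by
      rw [← abs_of_pos hn2, ← abs_mul, f2, abs_mul, abs_of_pos hlogp]
    have a3 : |Real.log ‖ι y‖| = d * |Real.log ‖ι z‖| := by
      rw [g1, abs_mul, abs_of_nonneg hd]
    have hdz : d * (n₂ * |(z₁ : ℝ)|) = |(z₂ : ℝ)| * n₁ := by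
      have h3 : (d * (n₂ * |(z₁ : ℝ)|) - |(z₂ : ℝ)| * n₁) * Real.log p = 0 := by
        have h4 : d * n₂ * (n₁ * |Real.log ‖ι z‖|) = n₁ * (n₂ * (d * |Real.log ‖ι z‖|)) := by
          ring
        rw [a1, ← a3, a2] at h4
        linarith
      have := (mul_eq_zero.1 h3).resolve_right hlogp.ne'
      linarith
    obtain ⟨r, hr, h5⟩ := H.torsion ι hy hz (n₂ * z₁.natAbs) (z₂.natAbs * n₁) (fun g => by
      push_cast
      rw [habs, habs, hg g, ← hdz]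
      ring)
    have hm : 0 < n₂ * z₁.natAbs := Nat.mul_pos hn₂ (Int.natAbs_pos.2 (by exact_mod_cast hz1'))
    have hn : 0 < z₂.natAbs * n₁ := Nat.mul_pos (Int.natAbs_pos.2 (by exact_mod_cast hz2')) hn₁
    have h6 := H.comm y hy z hz _ _ (Nat.mul_pos hm hr) (Nat.mul_pos hn hr) h5 ι
    have hd1 : d = 1 := by
      rw [a3] at h6
      have h7 : 0 < |Real.log ‖ι z‖| := abs_pos.2 hz1
      have h8 : (d - 1) * |Real.log ‖ι z‖| = 0 := by linarith
      have h9 := (mul_eq_zero.1 h8).resolve_right h7.ne'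
      linarith
    obtain ⟨r', hr', h10⟩ := H.torsion ι hy hz 1 1 (fun g => by rw [hg g, hd1, one_mul])
    exact ⟨r', hr', by rwa [one_mul] at h10⟩
  rcases le_or_gt 0 c with h | h
  · obtain ⟨r, hr, h1⟩ := key x hx hx1 c h hc
    exact ⟨r, hr, Or.inl h1⟩
  · obtain ⟨r, hr, h1⟩ := key x⁻¹ (H.inv_mem hx) (by
      rw [map_inv₀, norm_inv, Real.log_inv]
      exact neg_ne_zero.2 hx1) (-c) (neg_nonneg.2 h.le) (fun g => by
      rw [hc g, map_inv₀, map_inv₀, norm_inv, Real.log_inv]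
      ring)
    exact ⟨r, hr, Or.inr h1⟩

/-- the sign of the slope -/
def sg (ι : Qb →+* PadicAlgCl p) (x : Qb) (g : GQ) : ℤˣ :=
  if 0 < Real.log ‖ι (g x)‖ then 1 else -1

theorem Letters.log_eq (H : Letters p A) (ι : Qb →+* PadicAlgCl p) {x : Qb} (hx : x ∈ A)
    (g : GQ) : Real.log ‖ι (g x)‖ = ((sg ι x g : ℤˣ) : ℤ) * |Real.log ‖ι x‖| := by
  have h1 := H.slope x hx (ι.comp (g : Qb →+* Qb)) ι
  change |Real.log ‖ι (g x)‖| = _ at h1
  unfold sg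
  split_ifs with h
  · rw [← h1, abs_of_pos h]
    simp
  · rw [← h1, abs_of_nonpos (not_lt.1 h)]
    simp

/-- **Orthogonality or proportionality.** -/
theorem Letters.orth (H : Letters p A) (ι : Qb →+* PadicAlgCl p) {x y : Qb}
    (hx : x ∈ A) (hy : y ∈ A) (hx1 : Real.log ‖ι x‖ ≠ 0) (hy1 : Real.log ‖ι y‖ ≠ 0) :
    (∃ c : ℝ, ∀ g : GQ, Real.log ‖ι (g y)‖ = c * Real.log ‖ι (g x)‖) ∨
      ∃ t : GQ, ∀ g : GQ, Real.log ‖ι ((g * t) x)‖ * Real.log ‖ι ((g * t) y)‖ =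
        -(Real.log ‖ι (g x)‖ * Real.log ‖ι (g y)‖) := by
  classical
  obtain ⟨m₁, F₁, hm₁, hf₁, hN₁, hs₁, hp₁, hS₁⟩ := H.field x hx ⟨ι, hx1⟩
  obtain ⟨m₂, F₂, hm₂, hf₂, hN₂, hs₂, hp₂, hS₂⟩ := H.field y hy ⟨ι, hy1⟩
  let π₁ : GQ →* (F₁ ≃ₐ[ℚ] F₁) := AlgEquiv.restrictNormalHom F₁
  let π₂ : GQ →* (F₂ ≃ₐ[ℚ] F₂) := AlgEquiv.restrictNormalHom F₂
  have hker : ∀ (F : IntermediateField ℚ Qb) [Normal ℚ F] (h : GQ),
      h ∈ (AlgEquiv.restrictNormalHom F : GQ →* (F ≃ₐ[ℚ] F)).ker ↔ ∀ z ∈ F, h z = z := by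
    intro F _ h
    rw [MonoidHom.mem_ker]
    constructor
    · intro h1 z hz
      have h2 := AlgEquiv.restrictNormal_commutes h F ⟨z, hz⟩
      have h3 : (h.restrictNormal F) ⟨z, hz⟩ = ⟨z, hz⟩ := by
        have h4 : h.restrictNormal F = 1 := h1
        rw [h4]
        rfl
      rw [h3] at h2
      exact h2.symm
    · intro h1
      ext z
      have h2 := AlgEquiv.restrictNormal_commutes h F z
      exact h2.trans (h1 z z.2)
  have hsg : ∀ (z : Qb), z ∈ A → Real.log ‖ι z‖ ≠ 0 → ∀ (F : IntermediateField ℚ Qb)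
      [Normal ℚ F] (m : ℕ), 0 < m →
      (∀ h : GQ, (∀ w ∈ F, h w = w) → h (z ^ m) = z ^ m ∨ h (z ^ m) = (z ^ m)⁻¹) →
      ∃ ε : (AlgEquiv.restrictNormalHom F : GQ →* (F ≃ₐ[ℚ] F)).ker →* ℤˣ,
        ∀ (g : GQ) (h : (AlgEquiv.restrictNormalHom F : GQ →* (F ≃ₐ[ℚ] F)).ker),
          sg ι z (g * h) = sg ι z g * ε h := by
    intro z hz hz1 F _ m hm hs
    have hm' : (m : ℝ) ≠ 0 := Nat.cast_ne_zero.2 hm.ne'
    have hpow : ∀ w : Qb, Real.log ‖ι (w ^ m)‖ = m * Real.log ‖ι w‖ := by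
      intro w
      rw [map_pow, norm_pow, Real.log_pow]
    have hzi : (z ^ m)⁻¹ ≠ z ^ m := by
      intro h
      have h2 := congrArg (fun w => Real.log ‖ι w‖) h
      simp only [map_inv₀, norm_inv, Real.log_inv] at h2
      rw [hpow] at h2
      have h3 : (m : ℝ) * Real.log ‖ι z‖ = 0 := by linarith
      exact hz1 ((mul_eq_zero.1 h3).resolve_left hm')
    let ε : (AlgEquiv.restrictNormalHom F : GQ →* (F ≃ₐ[ℚ] F)).ker →* ℤˣ :=
      { toFun := fun h => if h.1 (z ^ m) = z ^ m then 1 else -1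
        map_one' := if_pos rfl
        map_mul' := by
          intro a b
          have ha := hs a.1 ((hker F a.1).1 a.2)
          have hb := hs b.1 ((hker F b.1).1 b.2)
          change (if a.1 (b.1 (z ^ m)) = z ^ m then (1 : ℤˣ) else -1) =
            (if a.1 (z ^ m) = z ^ m then 1 else -1) * (if b.1 (z ^ m) = z ^ m then 1 else -1)
          rcases hb with h1 | h1 <;> rcases ha with h2 | h2
          · rw [h1, h2]; simp
          · rw [h1, h2, if_neg hzi, if_pos rfl]; simp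
          · rw [h1, map_inv₀, h2, if_neg hzi, if_pos rfl]; simp
          · rw [h1, map_inv₀, h2, if_neg hzi, inv_inv, if_pos rfl]; simp }
    have hε : ∀ h, ε h = if h.1 (z ^ m) = z ^ m then 1 else -1 := fun h => rfl
    refine ⟨ε, fun g h => ?_⟩
    have hgz : Real.log ‖ι (g z)‖ ≠ 0 := by
      intro h0
      exact hz1 (H.log_zero hz (l := ι.comp (g : Qb →+* Qb)) h0 ι)
    rw [hε]
    have e0 : sg ι z (g * h) = if 0 < Real.log ‖ι (g (h.1 z))‖ then 1 else -1 := rfl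
    rw [e0]
    rcases hs h.1 ((hker F h.1).1 h.2) with h1 | h1
    · have h2 : Real.log ‖ι (g (h.1 z))‖ = Real.log ‖ι (g z)‖ := by
        have h3 := congrArg (fun w => Real.log ‖ι (g w)‖) h1
        simp only [map_pow, norm_pow, Real.log_pow] at h3
        exact mul_left_cancel₀ hm' h3
      rw [h2, if_pos h1, mul_one]
      rfl
    · have h2 : Real.log ‖ι (g (h.1 z))‖ = -Real.log ‖ι (g z)‖ := by
        have h3 := congrArg (fun w => Real.log ‖ι (g w)‖) h1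
        simp only [map_pow, map_inv₀, norm_inv, Real.log_inv, norm_pow, Real.log_pow] at h3
        have h4 : (m : ℝ) * (Real.log ‖ι (g (h.1 z))‖ + Real.log ‖ι (g z)‖) = 0 := by linarith
        have h5 := (mul_eq_zero.1 h4).resolve_left hm'
        linarith
      have hif : (if h.1 (z ^ m) = z ^ m then (1 : ℤˣ) else -1) = -1 :=
        if_neg (by rw [h1]; exact hzi)
      rw [h2, hif]
      unfold sg
      rcases lt_or_gt_of_ne hgz with h2 | h2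
      · rw [if_pos (by linarith), if_neg (by linarith)]
        rfl
      · rw [if_neg (by linarith), if_pos (by linarith)]
        rfl
  obtain ⟨ε₁, hε₁⟩ := hsg x hx hx1 F₁ m₁ hm₁ hs₁
  obtain ⟨ε₂, hε₂⟩ := hsg y hy hy1 F₂ m₂ hm₂ hs₂
  have hd : ∀ (F : IntermediateField ℚ Qb) [Normal ℚ F] [FiniteDimensional ℚ F],
      (∀ (l l' : Qb →+* PadicAlgCl p), ∀ z ∈ F, ‖l z‖ = ‖l' z‖) → ∀ g : GQ,
      ∃ u ∈ (AlgEquiv.restrictNormalHom F : GQ →* (F ≃ₐ[ℚ] F)).ker, ∀ z : GQ,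
        sg ι x (g * z) = sg ι x (u * z) ∧ sg ι y (g * z) = sg ι y (u * z) := by
    intro F _ _ hpl g
    obtain ⟨k, hk, hk'⟩ := places_conj ι F (1 : GQ) g (fun z hz =>
      hpl (ι.comp ((1 : GQ) : Qb →+* Qb)) (ι.comp (g : Qb →+* Qb)) z hz)
    refine ⟨k, (hker F k).2 hk, fun z => ?_⟩
    have e : ∀ w : Qb, sg ι w (g * z) = sg ι w (k * z) := by
      intro w
      change (if 0 < Real.log ‖ι (g (z w))‖ then (1 : ℤˣ) else -1) =
        if 0 < Real.log ‖ι (k (z w))‖ then 1 else -1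
      rw [hk' (z w)]
      rfl
    exact ⟨e x, e y⟩
  have hres := dichotomy (sg ι x) (sg ι y) π₁.ker π₂.ker ε₁ ε₂ hε₁ hε₂ (hd F₁ hp₁) (hd F₂ hp₂)
    (fun χ₁ χ₂ k₁ k₂ n₁ n₂ => character_unique π₂ hS₂ π₁.ker χ₁ χ₂ k₁ k₂ n₁ n₂)
  have hcast : ∀ u v : ℤˣ, (((u * v : ℤˣ) : ℤ) : ℝ) = ((u : ℤ) : ℝ) * ((v : ℤ) : ℝ) := by
    intro u v
    push_cast
    rfl
  rcases hres with h | ⟨t, ht⟩
  · left
    set a := |Real.log ‖ι x‖| with ha
    set b := |Real.log ‖ι y‖| with hb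
    have ha0 : 0 < a := abs_pos.2 hx1
    refine ⟨(((sg ι x 1 * sg ι y 1 : ℤˣ) : ℤ) : ℝ) * (b / a), fun g => ?_⟩
    rw [H.log_eq ι hx g, H.log_eq ι hy g, ← ha, ← hb]
    have h1 := h g
    have h2 : sg ι y g = sg ι x 1 * sg ι y 1 * sg ι x g := by
      rw [← h1, mul_comm (sg ι x g), mul_assoc, units_sq, mul_one]
    rw [h2, hcast]
    field_simp
  · right
    refine ⟨t, fun g => ?_⟩
    rw [H.log_eq ι hx g, H.log_eq ι hy g, H.log_eq ι hx (g * t), H.log_eq ι hy (g * t)]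
    have h1 := congrArg (fun u : ℤˣ => ((u : ℤ) : ℝ)) (ht g)
    simp only [Units.val_neg, Int.cast_neg] at h1
    rw [hcast, hcast] at h1
    linear_combination |Real.log ‖ι x‖| * |Real.log ‖ι y‖| * h1

end

end Pool.Agent.KS6_5.OC
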